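import Mathlib

set_option autoImplicit false

/-! # From the law of the gaps and a bound for the large gaps to the moments -/

namespace Pool.Agent.T2H62.MG

open Finset Filter Topology MeasureTheory

/-- the distance to the next element -/
noncomputable def gp (R : Set ℕ) (r : ℕ) : ℕ := sInf {g : ℕ | 0 < g ∧ r + g ∈ R}

theorem gp_iff {R : Set ℕ} (hR : ∀ a : ℕ, ∃ n, a < n ∧ n ∈ R) (r H : ℕ) : H < gp R r ↔ ∀ h ∈ Icc 1 H, r + h ∉ R := by
  have hne : {g : ℕ | 0 < g ∧ r + g ∈ R}.Nonempty := by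
    obtain ⟨n, h1, h2⟩ := hR r
    refine ⟨n - r, by omega, ?_⟩
    have : r + (n - r) = n := by omega
    rw [this]
    exact h2
  have hmem := Nat.sInf_mem hne
  constructor
  · intro h1 h hh h2
    rw [mem_Icc] at hh
    have h3 : gp R r ≤ h := Nat.sInf_le ⟨by omega, h2⟩
    omega
  · intro h1
    by_contra hcon
    push Not at hcon
    have h2 : gp R r ∈ Icc 1 H := by
      rw [mem_Icc]
      exact ⟨hmem.1, hcon⟩
    exact h1 _ h2 hmem.2

theorem key (j : ℕ) (x : ℝ) (hx : 0 ≤ x) :
    IntegrableOn (fun t : ℝ => if t < x then ((j : ℝ) + 1) * t ^ j else 0) (Set.Ioi 0) ∧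
    ∫ t in Set.Ioi (0 : ℝ), (if t < x then ((j : ℝ) + 1) * t ^ j else 0) = x ^ (j + 1) := by
  classical
  have e1 : (fun t : ℝ => if t < x then ((j : ℝ) + 1) * t ^ j else 0) = (Set.Iio x).indicator (fun t : ℝ => ((j : ℝ) + 1) * t ^ j) := by
    funext t
    by_cases h : t < x
    · rw [if_pos h, Set.indicator_of_mem (show t ∈ Set.Iio x from h)]
    · rw [if_neg h, Set.indicator_of_notMem (show t ∉ Set.Iio x from h)]
  have hc : Continuous (fun t : ℝ => ((j : ℝ) + 1) * t ^ j) := by fun_prop
  rw [e1]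
  constructor
  · unfold IntegrableOn
    rw [integrable_indicator_iff measurableSet_Iio]
    unfold IntegrableOn
    rw [Measure.restrict_restrict measurableSet_Iio]
    have h2 : Set.Iio x ∩ Set.Ioi 0 ⊆ Set.Icc 0 x := by
      rintro t ⟨h3, h4⟩
      exact ⟨le_of_lt h4, le_of_lt h3⟩
    exact (hc.integrableOn_Icc).mono_set h2
  · rw [setIntegral_indicator measurableSet_Iio, Set.Ioi_inter_Iio, ← integral_Ioc_eq_integral_Ioo, ← intervalIntegral.integral_of_le hx,
      intervalIntegral.integral_const_mul, integral_pow]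
    have : (j : ℝ) + 1 ≠ 0 := by positivity
    field_simp
    ring

theorem gam (j : ℕ) : ∫ t in Set.Ioi (0 : ℝ), ((j : ℝ) + 1) * t ^ j * Real.exp (-t) = ((j + 1).factorial : ℝ) := by
  have h1 := Real.Gamma_eq_integral (show (0 : ℝ) < (j : ℝ) + 1 by positivity)
  rw [Real.Gamma_nat_eq_factorial] at h1
  have h2 : ∫ t in Set.Ioi (0 : ℝ), ((j : ℝ) + 1) * t ^ j * Real.exp (-t) =
      ∫ t in Set.Ioi (0 : ℝ), ((j : ℝ) + 1) * (Real.exp (-t) * t ^ ((j : ℝ) + 1 - 1)) := by
    apply setIntegral_congr_fun measurableSet_Ioi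
    intro t ht
    simp only
    rw [add_sub_cancel_right, Real.rpow_natCast]
    ring
  rw [h2, integral_const_mul, ← h1, Nat.factorial_succ]
  push_cast
  ring

section det

variable {R : Set ℕ} [DecidablePred (· ∈ R)]

/-- the number of the elements followed by a gap `> t` -/
noncomputable def GT (R : Set ℕ) [DecidablePred (· ∈ R)] (t : ℝ) (N : ℕ) : ℝ :=
  ∑ r ∈ (Ioc N (2 * N)).filter (fun r => r ∈ R), if t < (gp R r : ℝ) then 1 else 0

/-- **the moments** -/
theorem moments (s : ℕ → ℝ) (hs : ∀ᶠ N : ℕ in atTop, 0 < s N) (j : ℕ)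
    (law : ∀ lam : ℝ, 0 < lam → Tendsto (fun N : ℕ => GT R (lam * s N) N * (s N / N)) atTop (𝓝 (Real.exp (-lam))))
    (C : ℝ) (bnd : ∀ᶠ N : ℕ in atTop, ∀ lam : ℝ, 0 < lam → GT R (lam * s N) N * (s N / N) ≤ C / (1 + lam) ^ (j + 2)) :
    Tendsto (fun N : ℕ => (∑ r ∈ (Ioc N (2 * N)).filter (fun r => r ∈ R), ((gp R r : ℝ) / s N) ^ (j + 1)) * (s N / N))
      atTop (𝓝 ((j + 1).factorial : ℝ)) := by
  classical
  -- the integral representation
  have hrep : ∀ᶠ N : ℕ in atTop, (∑ r ∈ (Ioc N (2 * N)).filter (fun r => r ∈ R), ((gp R r : ℝ) / s N) ^ (j + 1)) * (s N / N) =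
      ∫ t in Set.Ioi (0 : ℝ), ((j : ℝ) + 1) * t ^ j * (GT R (t * s N) N * (s N / N)) := by
    filter_upwards [hs] with N hN
    have h1 : ∀ r ∈ (Ioc N (2 * N)).filter (fun r => r ∈ R), ((gp R r : ℝ) / s N) ^ (j + 1) =
        ∫ t in Set.Ioi (0 : ℝ), (if t < (gp R r : ℝ) / s N then ((j : ℝ) + 1) * t ^ j else 0) := fun r _ =>
      (key j _ (by positivity)).2.symm
    rw [sum_congr rfl h1, ← integral_finset_sum _ (fun r _ => (key j ((gp R r : ℝ) / s N) (by positivity)).1), ← integral_mul_const]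
    apply integral_congr_ae
    filter_upwards with t
    unfold GT
    rw [sum_mul, sum_mul, mul_sum]
    refine sum_congr rfl fun r _ => ?_
    have h2 : t < (gp R r : ℝ) / s N ↔ t * s N < (gp R r : ℝ) := by rw [lt_div_iff₀ hN]
    by_cases h3 : t < (gp R r : ℝ) / s N
    · rw [if_pos h3, if_pos (h2.1 h3)]
      ring
    · rw [if_neg h3, if_neg (fun h4 => h3 (h2.2 h4))]
      ring
  refine Tendsto.congr' (hrep.mono fun N h => h.symm) ?_
  rw [← gam j]
  have hCj : Integrable (fun t : ℝ => ((j : ℝ) + 1) * |C| * (1 + ‖t‖) ^ (-(2 : ℝ))) (volume.restrict (Set.Ioi (0 : ℝ))) := by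
    apply Integrable.const_mul
    exact (integrable_one_add_norm (E := ℝ) (by simp)).restrict
  apply tendsto_integral_filter_of_dominated_convergence _ _ _ hCj
  · rw [ae_restrict_iff' measurableSet_Ioi]
    filter_upwards with t ht
    exact (law t ht).const_mul _
  · filter_upwards with N
    apply Measurable.aestronglyMeasurable
    unfold GT
    apply Measurable.mul (by fun_prop)
    apply Measurable.mul_const
    apply Finset.measurable_sum
    intro r _
    exact Measurable.ite (measurableSet_lt (by fun_prop) measurable_const) measurable_const measurable_const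
  · filter_upwards [bnd, hs] with N hN hN2
    rw [ae_restrict_iff' measurableSet_Ioi]
    filter_upwards with t ht
    have ht0 : (0 : ℝ) < t := ht
    have h1 := hN t ht0
    have h2 : 0 ≤ GT R (t * s N) N * (s N / N) := by
      apply mul_nonneg _ (by positivity)
      unfold GT
      apply sum_nonneg
      intro r _
      split_ifs <;> norm_num
    rw [Real.norm_eq_abs, abs_of_nonneg (by positivity), Real.norm_eq_abs, abs_of_pos ht0, mul_assoc, mul_assoc]
    apply mul_le_mul_of_nonneg_left _ (by positivity)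
    have h3 : (1 + t) ^ (-(2 : ℝ)) = 1 / (1 + t) ^ 2 := by
      rw [Real.rpow_neg (by positivity), one_div]
      norm_num
    rw [h3]
    have h4 : t ^ j ≤ (1 + t) ^ j := pow_le_pow_left₀ ht0.le (by linarith) j
    calc t ^ j * (GT R (t * s N) N * (s N / N)) ≤ (1 + t) ^ j * (|C| / (1 + t) ^ (j + 2)) := by
          apply mul_le_mul h4 _ h2 (by positivity)
          refine h1.trans ?_
          exact div_le_div_of_nonneg_right (le_abs_self C) (by positivity)
      _ = |C| * (1 / (1 + t) ^ 2) := by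
          rw [pow_add]
          field_simp

end det

end Pool.Agent.T2H62.MG
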