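import Pool.Agent.T2H62.MG.E
import Pool.Agent.T2H62.MG.F

set_option autoImplicit false

/-! # The moments of the gaps between random primes -/

namespace Pool.Agent.T2H62.MG

open Finset Filter Topology MeasureTheory ProbabilityTheory
open Pool.Agent.T2H62.MD
open Pool.Agent.T2H62.MM (tlog)
open Pool.Agent.T2H53.GW
open Pool.Agent.T2H62.ME (Em mem_Em EmR LR LR_anti sum_up gap_law)

section det

variable {R : Set ℕ} [DecidablePred (· ∈ R)]

theorem GT_LR (hR : ∀ a : ℕ, ∃ n, a < n ∧ n ∈ R) (t : ℝ) (ht : 0 ≤ t) (N : ℕ) : GT R t N = (LR R ⌊t⌋₊ N : ℝ) := by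
  classical
  unfold GT LR
  rw [← sum_filter, sum_const, nsmul_eq_mul, mul_one, filter_filter]
  congr 2
  apply filter_congr
  intro r _
  rw [← gp_iff hR, Nat.floor_lt ht]

/-- the number of the elements with a long gap -/
theorem LR_tail (H N : ℕ) (hN : 1 ≤ N) (hH : 2 ≤ H) : (LR R H N : ℝ) ≤ (EmR R (H / 2) N : ℝ) / ((H / 2 : ℕ) : ℝ) + 1 := by
  obtain ⟨k, hk⟩ : ∃ k, k = H / 2 := ⟨_, rfl⟩
  rw [← hk]
  have hk1 : 1 ≤ k := by omega
  have hk0 : (0 : ℝ) < k := by exact_mod_cast hk1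
  have h1 := sum_up R k N hN k
  have h2 : (LR R H N : ℝ) ≤ LR R (k + k) N := by exact_mod_cast LR_anti R (by omega) N
  have h3 : (0 : ℝ) ≤ EmR R (k + k) N := Nat.cast_nonneg _
  have h4 : (k : ℝ) * LR R (k + k) N ≤ EmR R k N + k := by linarith
  refine h2.trans ?_
  rw [← sub_le_iff_le_add, le_div_iff₀ hk0]
  linarith

/-- the bound for the long gaps -/
theorem tail_det (hR : ∀ a : ℕ, ∃ n, a < n ∧ n ∈ R) (j : ℕ)
    (hcard : ∀ ε : ℝ, 0 < ε → ∀ᶠ N : ℕ in atTop,
        |(((Ioc N (2 * N)).filter (fun n => n ∈ R)).card : ℝ) - N / Real.log N| ≤ ε * (N / Real.log N))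
    (hgap : ∀ᶠ N : ℕ in atTop, ∃ n ∈ Ioc N (N + ⌊Real.log N ^ (3 : ℝ)⌋₊), n ∈ R)
    (hem : ∀ᶠ N : ℕ in atTop, ∀ H : ℕ, Real.log N ≤ H → (H : ℝ) ≤ Real.log N ^ 4 →
      (EmR R H N : ℝ) ≤ N * Real.exp (-(1 / 2 * (H / Real.log N))) + 2 * (N / Real.log N ^ (2 * (j + 2)))) :
    ∀ᶠ N : ℕ in atTop, ∀ lam : ℝ, 0 < lam →
      GT R (lam * Real.log N) N * (Real.log N / N) ≤ (2 * 5 ^ (j + 2) + ((j + 2).factorial + 3) * 10 ^ (j + 2)) / (1 + lam) ^ (j + 2) := by
  classical
  filter_upwards [hcard 1 one_pos, eventually_forall_ge_atTop.2 hgap, hem, tlog.eventually_ge_atTop 8, eventually_ge_atTop 3,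
    log_pow_small (2 * (j + 2) + 1) 1 1 one_pos one_pos] with N h1 h2 h3 h4 h5 h6 lam hlam
  obtain ⟨L, hL⟩ : ∃ L, L = Real.log (N : ℝ) := ⟨_, rfl⟩
  rw [← hL] at h1 h3 h4 h6 ⊢
  have hL0 : 0 < L := by linarith
  have hN0 : (0 : ℝ) < N := by exact_mod_cast (by omega : 0 < N)
  have hfac : (0 : ℝ) < ((j + 2).factorial : ℝ) := by exact_mod_cast Nat.factorial_pos _
  rw [le_div_iff₀ (by positivity)]
  rcases le_or_gt lam 4 with h7 | h7
  · -- small values
    have h8 : GT R (lam * L) N ≤ 2 * (N / L) := by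
      have b1 : GT R (lam * L) N ≤ ((Ioc N (2 * N)).filter (fun n => n ∈ R)).card := by
        unfold GT
        calc ∑ r ∈ (Ioc N (2 * N)).filter (fun r => r ∈ R), (if lam * L < (gp R r : ℝ) then (1 : ℝ) else 0) ≤
              ∑ r ∈ (Ioc N (2 * N)).filter (fun r => r ∈ R), (1 : ℝ) := by
              apply sum_le_sum
              intro r _
              split_ifs <;> norm_num
          _ = _ := by rw [sum_const, nsmul_eq_mul, mul_one]
      have b2 := (abs_le.1 h1).2
      linarith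
    have h9 : GT R (lam * L) N * (L / N) ≤ 2 := by
      calc GT R (lam * L) N * (L / N) ≤ 2 * (N / L) * (L / N) := mul_le_mul_of_nonneg_right h8 (by positivity)
        _ = 2 := by field_simp
    have h10 : (1 + lam) ^ (j + 2) ≤ 5 ^ (j + 2) := pow_le_pow_left₀ (by positivity) (by linarith) _
    calc GT R (lam * L) N * (L / N) * (1 + lam) ^ (j + 2) ≤ 2 * 5 ^ (j + 2) := mul_le_mul h9 h10 (by positivity) (by norm_num)
      _ ≤ _ := by
          have : 0 ≤ ((((j + 2).factorial : ℝ)) + 3) * 10 ^ (j + 2) := by positivity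
          linarith
  rcases le_or_gt lam (8 * L ^ 2) with h8 | h8
  · -- medium values
    obtain ⟨H, hH⟩ : ∃ H, H = ⌊lam * L⌋₊ := ⟨_, rfl⟩
    obtain ⟨k, hk⟩ : ∃ k, k = H / 2 := ⟨_, rfl⟩
    have hlL : 32 ≤ lam * L := by nlinarith
    have hH1 : lam * L < H + 1 := by rw [hH]; exact Nat.lt_floor_add_one _
    have hH2 : (H : ℝ) ≤ lam * L := by rw [hH]; exact Nat.floor_le (by positivity)
    have hH3 : 2 ≤ H := by
      have : (2 : ℝ) ≤ H := by linarith
      exact_mod_cast this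
    have hk1 : (H : ℝ) ≤ 2 * k + 1 := by exact_mod_cast (by omega : H ≤ 2 * k + 1)
    have hk2 : (k : ℝ) ≤ H := by exact_mod_cast (by omega : k ≤ H)
    have hk3 : lam * L / 4 ≤ k := by linarith
    have hk4 : L ≤ k := by
      have : 4 * L ≤ lam * L := mul_le_mul_of_nonneg_right h7.le hL0.le
      linarith
    have hk5 : (k : ℝ) ≤ L ^ 4 := by
      calc (k : ℝ) ≤ lam * L := hk2.trans hH2
        _ ≤ 8 * L ^ 2 * L := mul_le_mul_of_nonneg_right h8 hL0.le
        _ ≤ L * L ^ 2 * L := by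
            apply mul_le_mul_of_nonneg_right _ hL0.le
            exact mul_le_mul_of_nonneg_right h4 (by positivity)
        _ = L ^ 4 := by ring
    have hk0 : (0 : ℝ) < k := by linarith
    have b1 := LR_tail (R := R) H N (by omega) hH3
    rw [← hk] at b1
    have b2 := h3 k hk4 hk5
    have b3 : Real.exp (-(1 / 2 * ((k : ℝ) / L))) ≤ Real.exp (-(lam / 8)) := by
      apply Real.exp_le_exp.2
      have : lam / 4 ≤ (k : ℝ) / L := by
        rw [le_div_iff₀ hL0]
        linarith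
      linarith
    rw [GT_LR hR _ (by positivity), ← hH]
    obtain ⟨X, hX⟩ : ∃ X, X = Real.exp (-(lam / 8)) + 2 / L ^ (2 * (j + 2)) := ⟨_, rfl⟩
    have b4 : (EmR R k N : ℝ) ≤ N * X := by
      rw [hX, mul_add]
      refine b2.trans (add_le_add (mul_le_mul_of_nonneg_left b3 hN0.le) ?_)
      apply le_of_eq
      ring
    have hX0 : 0 < X := by rw [hX]; positivity
    have b5 : (EmR R k N : ℝ) / k ≤ N * X / L := by
      exact div_le_div₀ (by positivity) b4 hL0 hk4
    have b6 : (LR R H N : ℝ) * (L / N) ≤ X + L / N := by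
      calc (LR R H N : ℝ) * (L / N) ≤ (N * X / L + 1) * (L / N) := mul_le_mul_of_nonneg_right (by linarith) (by positivity)
        _ = X + L / N := by field_simp
    have b7 : L / N ≤ 1 / L ^ (2 * (j + 2)) := by
      rw [one_mul, Real.rpow_one] at h6
      rw [div_le_div_iff₀ hN0 (by positivity), one_mul, ← pow_succ']
      exact h6
    have b8 : (lam / 8) ^ (j + 2) ≤ L ^ (2 * (j + 2)) := by
      rw [pow_mul]
      exact pow_le_pow_left₀ (by positivity) (by linarith) _
    have b9 : Real.exp (-(lam / 8)) ≤ (j + 2).factorial / (lam / 8) ^ (j + 2) := by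
      have c1 := Real.pow_div_factorial_le_exp (lam / 8) (by positivity) (j + 2)
      rw [Real.exp_neg, inv_le_comm₀ (Real.exp_pos _) (by positivity), inv_div]
      exact c1
    have b10 : X + L / N ≤ ((j + 2).factorial + 3) / (lam / 8) ^ (j + 2) := by
      have c1 : 3 / L ^ (2 * (j + 2)) ≤ 3 / (lam / 8) ^ (j + 2) := div_le_div_of_nonneg_left (by norm_num) (by positivity) b8
      have c2 : 2 / L ^ (2 * (j + 2)) + 1 / L ^ (2 * (j + 2)) = 3 / L ^ (2 * (j + 2)) := by ring
      rw [hX, add_div]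
      linarith
    have b11 : (1 + lam) ^ (j + 2) ≤ (10 * (lam / 8)) ^ (j + 2) := pow_le_pow_left₀ (by positivity) (by linarith) _
    calc (LR R H N : ℝ) * (L / N) * (1 + lam) ^ (j + 2) ≤ ((j + 2).factorial + 3) / (lam / 8) ^ (j + 2) * (10 * (lam / 8)) ^ (j + 2) := by
          apply mul_le_mul (b6.trans b10) b11 (by positivity) (by positivity)
      _ = ((j + 2).factorial + 3) * 10 ^ (j + 2) := by
          rw [mul_pow]
          field_simp
      _ ≤ _ := by
          have : (0 : ℝ) ≤ 2 * 5 ^ (j + 2) := by positivity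
          linarith
  · -- large values
    have h9 : GT R (lam * L) N = 0 := by
      unfold GT
      apply sum_eq_zero
      intro r hr
      rw [mem_filter, mem_Ioc] at hr
      rw [if_neg]
      push Not
      obtain ⟨n, hn1, hn2⟩ := h2 r hr.1.1.le
      rw [mem_Ioc] at hn1
      have h10 : gp R r ≤ n - r := by
        apply Nat.sInf_le
        refine ⟨by omega, ?_⟩
        have : r + (n - r) = n := by omega
        rw [this]
        exact hn2
      have h11 : gp R r ≤ ⌊Real.log (r : ℝ) ^ (3 : ℝ)⌋₊ := by omega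
      have hr0 : (0 : ℝ) < r := by exact_mod_cast (by omega : 0 < r)
      have hlr0 : 0 ≤ Real.log (r : ℝ) := Real.log_nonneg (by exact_mod_cast (by omega : 1 ≤ r))
      have hlr : Real.log (r : ℝ) ≤ 2 * L := by
        have b1 : (r : ℝ) ≤ 2 * N := by exact_mod_cast hr.1.2
        have b2 := Real.log_le_log hr0 b1
        rw [Real.log_mul (by norm_num) hN0.ne', ← hL] at b2
        have := Real.log_two_lt_d9
        linarith
      have h12 : Real.log (r : ℝ) ^ (3 : ℝ) ≤ lam * L := by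
        calc Real.log (r : ℝ) ^ (3 : ℝ) = Real.log (r : ℝ) ^ 3 := by norm_num
          _ ≤ (2 * L) ^ 3 := pow_le_pow_left₀ hlr0 hlr 3
          _ = 8 * L ^ 2 * L := by ring
          _ ≤ lam * L := mul_le_mul_of_nonneg_right h8.le hL0.le
      calc (gp R r : ℝ) ≤ (⌊Real.log (r : ℝ) ^ (3 : ℝ)⌋₊ : ℕ) := by exact_mod_cast h11
        _ ≤ Real.log (r : ℝ) ^ (3 : ℝ) := Nat.floor_le (by positivity)
        _ ≤ _ := h12
    rw [h9, zero_mul, zero_mul]
    positivity

end det

variable {Ω : Type*} [MeasurableSpace Ω] {μ : Measure Ω} [IsProbabilityMeasure μ] {S : ℕ → Set Ω}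

/-- **all moments of the gaps** -/
theorem moments_ae {A : ℝ} (hA : 0 < A) (hm : ∀ n, MeasurableSet (S n)) (hi : iIndepSet S μ)
    (hp : ∀ n, μ.real (S n) = pr A n) :
    ∀ᵐ ω ∂μ, ∀ R : Set ℕ, ∀ _ : DecidablePred (· ∈ R), R = {n | ω ∈ S n} → ∀ k : ℕ,
      Tendsto (fun N : ℕ => (∑ r ∈ (Ioc N (2 * N)).filter (fun r => r ∈ R), ((gp R r : ℝ) / Real.log N) ^ k) * (Real.log N / N))
        atTop (𝓝 (k.factorial : ℝ)) := by
  classical
  have hae : ∀ᵐ ω ∂μ, ∀ j : ℕ, ∀ᶠ N : ℕ in atTop, ∀ H : ℕ, Real.log N ≤ H → (H : ℝ) ≤ Real.log N ^ 4 →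
      cnt (Ioc N (2 * N)) (Em S H) ω ≤ N * Real.exp (-(1 / 2 * (H / Real.log N))) + 2 * (N / Real.log N ^ (2 * (j + 2))) :=
    ae_all_iff.2 fun j => emp_tail hA hm hi hp 4 (2 * (j + 2))
  filter_upwards [gap_law hA hm hi hp, hae] with ω h1 h2 R hdec hR k
  obtain ⟨hlaw, hcard, hgap⟩ := h1 R hdec hR
  have hunb : ∀ a : ℕ, ∃ n, a < n ∧ n ∈ R := by
    intro a
    obtain ⟨n₀, hn₀⟩ := eventually_atTop.1 hgap
    obtain ⟨n, hn, hnR⟩ := hn₀ (a + n₀) (by omega)
    rw [mem_Ioc] at hn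
    exact ⟨n, by omega, hnR⟩
  rcases k with _ | j
  · -- the number of the elements
    rw [Metric.tendsto_atTop]
    intro ε hε
    obtain ⟨n₀, hn₀⟩ := eventually_atTop.1 (hcard (ε / 2) (by positivity))
    refine ⟨n₀ + 3, fun N hN => ?_⟩
    have h4 := hn₀ N (by omega)
    have hN0 : (0 : ℝ) < N := by exact_mod_cast (by omega : 0 < N)
    have hl : 0 < Real.log (N : ℝ) := Real.log_pos (by exact_mod_cast (by omega : 1 < N))
    simp only [pow_zero, sum_const, nsmul_eq_mul, mul_one, Nat.factorial_zero, Nat.cast_one]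
    rw [Real.dist_eq, show (((Ioc N (2 * N)).filter (fun n => n ∈ R)).card : ℝ) * (Real.log N / N) - 1 =
      ((((Ioc N (2 * N)).filter (fun n => n ∈ R)).card : ℝ) - N / Real.log N) * (Real.log N / N) by field_simp, abs_mul,
      abs_of_pos (show 0 < Real.log (N : ℝ) / N by positivity)]
    calc |(((Ioc N (2 * N)).filter (fun n => n ∈ R)).card : ℝ) - N / Real.log N| * (Real.log N / N) ≤
          ε / 2 * (N / Real.log N) * (Real.log N / N) := mul_le_mul_of_nonneg_right h4 (by positivity)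
      _ = ε / 2 := by field_simp
      _ < ε := by linarith
  · have hem : ∀ᶠ N : ℕ in atTop, ∀ H : ℕ, Real.log N ≤ H → (H : ℝ) ≤ Real.log N ^ 4 →
        (EmR R H N : ℝ) ≤ N * Real.exp (-(1 / 2 * (H / Real.log N))) + 2 * (N / Real.log N ^ (2 * (j + 2))) := by
      filter_upwards [h2 j] with N h3 H h4 h5
      have h6 : cnt (Ioc N (2 * N)) (Em S H) ω = (EmR R H N : ℝ) := by
        rw [cnt_eq]
        unfold EmR
        congr 2
        apply filter_congr
        intro n _
        rw [mem_Em, hR]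
        rfl
      rw [← h6]
      exact h3 H h4 h5
    apply moments (fun N : ℕ => Real.log N) (tlog.eventually_gt_atTop 0) j _ _ (tail_det hunb j hcard hgap hem)
    intro lam hlam
    rw [Metric.tendsto_atTop]
    intro ε hε
    obtain ⟨n₀, hn₀⟩ := eventually_atTop.1 (hlaw lam hlam (ε / 2) (by positivity))
    refine ⟨n₀ + 3, fun N hN => ?_⟩
    have h4 := hn₀ N (by omega)
    have hN0 : (0 : ℝ) < N := by exact_mod_cast (by omega : 0 < N)
    have hl : 0 < Real.log (N : ℝ) := Real.log_pos (by exact_mod_cast (by omega : 1 < N))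
    rw [GT_LR hunb _ (by positivity), Real.dist_eq,
      show (LR R ⌊lam * Real.log N⌋₊ N : ℝ) * (Real.log N / N) - Real.exp (-lam) =
      ((LR R ⌊lam * Real.log N⌋₊ N : ℝ) - Real.exp (-lam) * (N / Real.log N)) * (Real.log N / N) by field_simp, abs_mul,
      abs_of_pos (show 0 < Real.log (N : ℝ) / N by positivity)]
    calc |(LR R ⌊lam * Real.log N⌋₊ N : ℝ) - Real.exp (-lam) * (N / Real.log N)| * (Real.log N / N) ≤
          ε / 2 * (N / Real.log N) * (Real.log N / N) := mul_le_mul_of_nonneg_right h4 (by positivity)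
      _ = ε / 2 := by field_simp
      _ < ε := by linarith

end Pool.Agent.T2H62.MG
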