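import Pool.Agent.T2H62.ME.A
import Pool.Agent.T2H31.HV.T_FIN
import Pool.Agent.T2H31.HV.T_MOM
import Pool.Agent.T2H31.HV.T_BV
import Pool.Agent.T2H31.HV.T_ANO
import Pool.Agent.T2H31.HV.T_FL

set_option autoImplicit false

/-! # High moments of the number of rough numbers and rough pairs in short windows -/

namespace Pool.Agent.T2H62.MG

open Finset Filter Topology
open Pool.Agent.T2H62.MD
open Pool.Agent.T2H62.ME (PP PP_nonneg)
open Pool.Agent.T2H31.HV (PN Pt Ev Dep sv PF EF mf mem_PN Ev_eq_of_dep T_FIN T_MOM T_BV T_ANO)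

open Classical in
/-- the indicator of a proposition -/
noncomputable def ind (Q : Prop) : ℝ := if Q then 1 else 0

theorem ind_pos {Q : Prop} (h : Q) : ind Q = 1 := if_pos h

theorem ind_neg {Q : Prop} (h : ¬ Q) : ind Q = 0 := if_neg h

theorem ind_bd (Q : Prop) : 0 ≤ ind Q ∧ ind Q ≤ 1 := by
  by_cases h : Q
  · rw [ind_pos h]; norm_num
  · rw [ind_neg h]; norm_num

/-- the shifts of a tuple -/
def TS (h : ℕ) {j : ℕ} (f : Fin j → ℕ) : Finset ℕ := univ.biUnion fun i => {f i, f i + h}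

theorem TS_card (h : ℕ) {j : ℕ} (f : Fin j → ℕ) : (TS h f).card ≤ 2 * j := by
  unfold TS
  refine card_biUnion_le.trans ?_
  calc ∑ i : Fin j, ({f i, f i + h} : Finset ℕ).card ≤ ∑ i : Fin j, 2 := sum_le_sum fun i _ => card_le_two
    _ = 2 * j := by rw [sum_const, card_univ, Fintype.card_fin, smul_eq_mul, mul_comm]

theorem ind_prod (Q : ℕ → Prop) (n h : ℕ) {j : ℕ} (f : Fin j → ℕ) :
    ∏ i, (ind (Q (n + f i)) * ind (Q (n + f i + h))) = ind (∀ t ∈ TS h f, Q (n + t)) := by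
  classical
  by_cases h1 : ∀ t ∈ TS h f, Q (n + t)
  · rw [ind_pos h1]
    apply prod_eq_one
    intro i _
    have h2 : Q (n + f i) := h1 (f i) (by
      unfold TS
      rw [mem_biUnion]
      exact ⟨i, mem_univ _, by simp⟩)
    have h3 : Q (n + f i + h) := by
      have := h1 (f i + h) (by
        unfold TS
        rw [mem_biUnion]
        exact ⟨i, mem_univ _, by simp⟩)
      rwa [← add_assoc] at this
    rw [ind_pos h2, ind_pos h3, one_mul]
  · rw [ind_neg h1]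
    push Not at h1
    obtain ⟨t, ht, hq⟩ := h1
    unfold TS at ht
    rw [mem_biUnion] at ht
    obtain ⟨i, _, hi⟩ := ht
    apply prod_eq_zero (mem_univ i)
    rw [mem_insert, mem_singleton] at hi
    rcases hi with rfl | rfl
    · rw [ind_neg hq, zero_mul]
    · rw [← add_assoc] at hq
      rw [ind_neg hq, mul_zero]

/-- the number of the `i ≤ H` with `Q (n + i)` and `Q (n + i + h)` -/
noncomputable def WS (Q : ℕ → Prop) (h H n : ℕ) : ℝ := ∑ i ∈ Icc 1 H, ind (Q (n + i)) * ind (Q (n + i + h))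

theorem WS_pow (Q : ℕ → Prop) (h H n j : ℕ) :
    WS Q h H n ^ j = ∑ f ∈ Fintype.piFinset (fun _ : Fin j => Icc 1 H), ind (∀ t ∈ TS h f, Q (n + t)) := by
  have h1 : WS Q h H n ^ j = ∏ _i : Fin j, ∑ i ∈ Icc 1 H, ind (Q (n + i)) * ind (Q (n + i + h)) := by
    unfold WS
    rw [prod_const, card_univ, Fintype.card_fin]
  rw [h1, prod_univ_sum]
  exact sum_congr rfl fun f _ => ind_prod Q n h f

/-- no prime `≤ Z` divides `m` -/
def Rq (Z m : ℕ) : Prop := ∀ p ∈ PJ Z, ¬ p ∣ m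

theorem sum_ind (Z : ℕ) (T : Finset ℕ) (a b : ℕ) :
    ∑ n ∈ Ioc a b, ind (∀ t ∈ T, Rq Z (n + t)) = (NX (PJ Z) (XX T) 1 0 a b : ℝ) := by
  classical
  unfold NX
  rw [card_filter]
  push_cast
  refine sum_congr rfl fun n _ => ?_
  have h0 : (∀ t ∈ T, Rq Z (n + t)) ↔ (n ≡ 0 [MOD 1] ∧ ∀ p ∈ PJ Z, n % p ∉ XX T p) := by
    constructor
    · intro h1
      refine ⟨Nat.modEq_one, fun p hp => ?_⟩
      rw [XX_iff T (PJ_prime hp).pos n]
      intro t ht
      exact h1 t ht p hp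
    · rintro ⟨-, h1⟩ t ht p hp
      exact (XX_iff T (PJ_prime hp).pos n).1 (h1 p hp) t ht
  by_cases h1 : ∀ t ∈ T, Rq Z (n + t)
  · rw [ind_pos h1, if_pos (h0.1 h1)]
  · rw [ind_neg h1, if_neg (fun h2 => h1 (h0.2 h2))]

theorem nu_shift (T : Finset ℕ) (t₀ p : ℕ) (hp : 0 < p) : (T.image fun t => (t₀ + t) % p).card = nu T p := by
  unfold nu
  have h1 : (T.image fun t => (t₀ + t) % p) = (T.image (fun t => t % p)).image (fun r => (t₀ + r) % p) := by
    rw [image_image]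
    apply image_congr
    intro t _
    simp only [Function.comp]
    rw [Nat.add_mod, Nat.add_mod t₀ (t % p), Nat.mod_mod]
  rw [h1]
  apply card_image_of_injOn
  intro a ha b hb hab
  rw [Finset.mem_coe, mem_image] at ha hb
  obtain ⟨a', _, rfl⟩ := ha
  obtain ⟨b', _, rfl⟩ := hb
  simp only at hab
  have h2 : a' % p ≡ b' % p [MOD p] := Nat.ModEq.add_left_cancel' t₀ hab
  unfold Nat.ModEq at h2
  rwa [Nat.mod_mod, Nat.mod_mod] at h2

theorem Ev_ind (Z N₀ t₀ : ℕ) (hZ : Z ≤ N₀) (T : Finset ℕ) :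
    Ev (PN N₀) (fun b => ind (∀ t ∈ T, ∀ p ∈ PJ Z, (t₀ + t) % p ≠ b p)) = ∏ p ∈ PJ Z, (1 - (nu T p : ℝ) / p) := by
  classical
  have hsub : PJ Z ⊆ PN N₀ := by
    intro p hp
    rw [mem_PN]
    have h1 := hp
    unfold PJ at h1
    rw [mem_filter, mem_Icc] at h1
    exact ⟨h1.1.2.trans hZ, h1.2⟩
  have hdep : Dep (PJ Z) (fun b => ind (∀ t ∈ T, ∀ p ∈ PJ Z, (t₀ + t) % p ≠ b p)) := by
    intro b b' hb
    show ind _ = ind _
    congr 1
    apply propext
    refine forall_congr' fun t => forall_congr' fun _ => forall_congr' fun p => forall_congr' fun hp => ?_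
    rw [hb p hp]
  rw [Ev_eq_of_dep (PN N₀) (PJ Z) hsub (fun p hp => ((mem_PN N₀ p).1 hp).2.pos) _ hdep]
  unfold Ev
  have h1 : ∀ b : ℕ → ℕ, ind (∀ t ∈ T, ∀ p ∈ PJ Z, (t₀ + t) % p ≠ b p) =
      ∏ p ∈ PJ Z, ind (b p ∉ T.image fun t => (t₀ + t) % p) := by
    intro b
    by_cases h2 : ∀ t ∈ T, ∀ p ∈ PJ Z, (t₀ + t) % p ≠ b p
    · rw [ind_pos h2]
      symm
      apply prod_eq_one
      intro p hp
      apply ind_pos
      rw [mem_image]
      rintro ⟨t, ht, h3⟩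
      exact h2 t ht p hp h3
    · rw [ind_neg h2]
      push Not at h2
      obtain ⟨t, ht, p, hp, h3⟩ := h2
      symm
      apply prod_eq_zero hp
      apply ind_neg
      rw [not_not, mem_image]
      exact ⟨t, ht, h3⟩
  simp only [h1]
  rw [Pool.Agent.T2H31.HV.L2.sum_Pt_prod (PJ Z) (fun p r => ind (r ∉ T.image fun t => (t₀ + t) % p)), ← prod_inv_distrib,
    ← prod_mul_distrib]
  refine prod_congr rfl fun p hp => ?_
  have hp0 := (PJ_prime hp).pos
  have hpR : (0 : ℝ) < p := by exact_mod_cast hp0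
  have h2 : ∑ r ∈ range p, ind (r ∉ T.image fun t => (t₀ + t) % p) = (p : ℝ) - nu T p := by
    have h3a : ∀ r : ℕ, ind (r ∉ T.image fun t => (t₀ + t) % p) = if r ∉ T.image (fun t => (t₀ + t) % p) then (1 : ℝ) else 0 := by
      intro r
      by_cases h5 : r ∉ T.image fun t => (t₀ + t) % p
      · rw [ind_pos h5, if_pos h5]
      · rw [ind_neg h5, if_neg h5]
    simp only [h3a]
    rw [← sum_filter, sum_const, nsmul_eq_mul, mul_one]
    have h3 : (range p).filter (fun r => r ∉ T.image fun t => (t₀ + t) % p) = range p \ (T.image fun t => (t₀ + t) % p) := by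
      ext r
      simp only [Finset.mem_filter, Finset.mem_sdiff]
    have h4 : (T.image fun t => (t₀ + t) % p) ⊆ range p := by
      intro r hr
      rw [mem_image] at hr
      obtain ⟨t, _, rfl⟩ := hr
      exact mem_range.2 (Nat.mod_lt _ hp0)
    rw [h3, card_sdiff_of_subset h4, nu_shift T t₀ p hp0, card_range, Nat.cast_sub]
    rw [← nu_shift T t₀ p hp0]
    calc (T.image fun t => (t₀ + t) % p).card ≤ (range p).card := card_le_card h4
      _ = p := card_range p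
  rw [h2]
  field_simp

/-- the mean of the powers -/
noncomputable def AJ (Z h H j : ℕ) : ℝ :=
  ∑ f ∈ Fintype.piFinset (fun _ : Fin j => Icc 1 H), ∏ p ∈ PJ Z, (1 - (nu (TS h f) p : ℝ) / p)

theorem Ev_sum {ι : Type*} (S : Finset ℕ) (I : Finset ι) (F : ι → (ℕ → ℕ) → ℝ) :
    Ev S (fun b => ∑ i ∈ I, F i b) = ∑ i ∈ I, Ev S (F i) := by
  unfold Ev
  rw [sum_comm, mul_sum]

theorem Ev_mul (S : Finset ℕ) (c : ℝ) (F : (ℕ → ℕ) → ℝ) : Ev S (fun b => c * F b) = c * Ev S F := by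
  unfold Ev
  rw [← mul_sum]
  ring

theorem Ev_pow (Z N₀ t₀ h H j : ℕ) (hZ : Z ≤ N₀) :
    Ev (PN N₀) (fun b => WS (fun m => ∀ p ∈ PJ Z, m % p ≠ b p) h H t₀ ^ j) = AJ Z h H j := by
  simp only [WS_pow]
  rw [Ev_sum]
  unfold AJ
  refine sum_congr rfl fun f _ => ?_
  exact Ev_ind Z N₀ t₀ hZ (TS h f)

theorem sum_pow (Z h H j a b : ℕ) (hab : a ≤ b) :
    |∑ n ∈ Ioc a b, WS (Rq Z) h H n ^ j - ((b : ℝ) - a) * AJ Z h H j| ≤ (H : ℝ) ^ j * (2 * j + 1) ^ (PJ Z).card := by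
  simp only [WS_pow]
  rw [sum_comm]
  unfold AJ
  rw [mul_sum, ← sum_sub_distrib]
  refine (abs_sum_le_sum_abs _ _).trans ?_
  calc ∑ f ∈ Fintype.piFinset (fun _ : Fin j => Icc 1 H), |∑ n ∈ Ioc a b, ind (∀ t ∈ TS h f, Rq Z (n + t)) -
        ((b : ℝ) - a) * ∏ p ∈ PJ Z, (1 - (nu (TS h f) p : ℝ) / p)| ≤
        ∑ f ∈ Fintype.piFinset (fun _ : Fin j => Icc 1 H), (2 * (j : ℝ) + 1) ^ (PJ Z).card := by
        apply sum_le_sum
        intro f _
        rw [sum_ind]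
        refine (leg_tuple (TS h f) Z Z le_rfl a b hab).trans ?_
        apply pow_le_pow_left₀ (by positivity)
        have : ((TS h f).card : ℝ) ≤ 2 * j := by exact_mod_cast TS_card h f
        linarith
    _ = _ := by
        rw [sum_const, nsmul_eq_mul, Fintype.card_piFinset]
        simp

theorem WS_nonneg (Q : ℕ → Prop) (h H n : ℕ) : 0 ≤ WS Q h H n :=
  sum_nonneg fun i _ => mul_nonneg (ind_bd _).1 (ind_bd _).1

theorem WS_le (Q : ℕ → Prop) (h H n : ℕ) : WS Q h H n ≤ H := by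
  unfold WS
  calc ∑ i ∈ Icc 1 H, ind (Q (n + i)) * ind (Q (n + i + h)) ≤ ∑ i ∈ Icc 1 H, (1 : ℝ) := by
        apply sum_le_sum
        intro i _
        exact mul_le_one₀ (ind_bd _).2 (ind_bd _).1 (ind_bd _).2
    _ = H := by simp

/-- **transfer** of the central moments -/
theorem transfer (Z N₀ t₀ h H k a b : ℕ) (hZ : Z ≤ N₀) (hab : a ≤ b) (M : ℝ) (hM0 : 0 ≤ M) (hMH : M ≤ H) :
    ∑ n ∈ Ioc a b, (WS (Rq Z) h H n - M) ^ (2 * k) ≤
      ((b : ℝ) - a) * Ev (PN N₀) (fun c => (WS (fun m => ∀ p ∈ PJ Z, m % p ≠ c p) h H t₀ - M) ^ (2 * k)) +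
        (2 * (H : ℝ)) ^ (2 * k) * (4 * k + 1) ^ (PJ Z).card := by
  have e1 : ∀ x : ℝ, (x - M) ^ (2 * k) = ∑ j ∈ range (2 * k + 1), ((-M) ^ (2 * k - j) * ((2 * k).choose j : ℝ)) * x ^ j := by
    intro x
    rw [sub_eq_add_neg, add_pow]
    refine sum_congr rfl fun j _ => ?_
    ring
  have e2 : Ev (PN N₀) (fun c => (WS (fun m => ∀ p ∈ PJ Z, m % p ≠ c p) h H t₀ - M) ^ (2 * k)) =
      ∑ j ∈ range (2 * k + 1), ((-M) ^ (2 * k - j) * ((2 * k).choose j : ℝ)) * AJ Z h H j := by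
    simp only [e1]
    rw [Ev_sum]
    refine sum_congr rfl fun j _ => ?_
    rw [Ev_mul, Ev_pow Z N₀ t₀ h H j hZ]
  have e3 : ∑ n ∈ Ioc a b, (WS (Rq Z) h H n - M) ^ (2 * k) =
      ∑ j ∈ range (2 * k + 1), ((-M) ^ (2 * k - j) * ((2 * k).choose j : ℝ)) * ∑ n ∈ Ioc a b, WS (Rq Z) h H n ^ j := by
    simp only [e1]
    rw [sum_comm]
    refine sum_congr rfl fun j _ => ?_
    rw [mul_sum]
  have e4 : ∑ n ∈ Ioc a b, (WS (Rq Z) h H n - M) ^ (2 * k) -
      ((b : ℝ) - a) * Ev (PN N₀) (fun c => (WS (fun m => ∀ p ∈ PJ Z, m % p ≠ c p) h H t₀ - M) ^ (2 * k)) =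
      ∑ j ∈ range (2 * k + 1), ((-M) ^ (2 * k - j) * ((2 * k).choose j : ℝ)) *
        (∑ n ∈ Ioc a b, WS (Rq Z) h H n ^ j - ((b : ℝ) - a) * AJ Z h H j) := by
    rw [e2, e3, mul_sum, ← sum_sub_distrib]
    refine sum_congr rfl fun j _ => ?_
    ring
  have e5 : |∑ j ∈ range (2 * k + 1), ((-M) ^ (2 * k - j) * ((2 * k).choose j : ℝ)) *
        (∑ n ∈ Ioc a b, WS (Rq Z) h H n ^ j - ((b : ℝ) - a) * AJ Z h H j)| ≤
      (2 * (H : ℝ)) ^ (2 * k) * (4 * k + 1) ^ (PJ Z).card := by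
    refine (abs_sum_le_sum_abs _ _).trans ?_
    calc ∑ j ∈ range (2 * k + 1), |((-M) ^ (2 * k - j) * ((2 * k).choose j : ℝ)) *
          (∑ n ∈ Ioc a b, WS (Rq Z) h H n ^ j - ((b : ℝ) - a) * AJ Z h H j)| ≤
          ∑ j ∈ range (2 * k + 1), ((H : ℝ) ^ j * (H : ℝ) ^ (2 * k - j) * ((2 * k).choose j : ℝ)) * (4 * k + 1) ^ (PJ Z).card := by
          apply sum_le_sum
          intro j hj
          rw [mem_range] at hj
          have hjk : (j : ℝ) ≤ 2 * k := by exact_mod_cast (by omega : j ≤ 2 * k)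
          rw [abs_mul, abs_mul, abs_pow, abs_neg, abs_of_nonneg hM0, abs_of_nonneg (Nat.cast_nonneg ((2 * k).choose j))]
          have c1 := sum_pow Z h H j a b hab
          have c2 : (2 * (j : ℝ) + 1) ^ (PJ Z).card ≤ (4 * k + 1) ^ (PJ Z).card := by
            apply pow_le_pow_left₀ (by positivity)
            linarith
          calc M ^ (2 * k - j) * ((2 * k).choose j : ℝ) * |∑ n ∈ Ioc a b, WS (Rq Z) h H n ^ j - ((b : ℝ) - a) * AJ Z h H j| ≤
                (H : ℝ) ^ (2 * k - j) * ((2 * k).choose j : ℝ) * ((H : ℝ) ^ j * (4 * k + 1) ^ (PJ Z).card) := by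
                apply mul_le_mul _ _ (abs_nonneg _) (by positivity)
                · exact mul_le_mul_of_nonneg_right (pow_le_pow_left₀ hM0 hMH _) (Nat.cast_nonneg _)
                · refine c1.trans ?_
                  exact mul_le_mul_of_nonneg_left c2 (by positivity)
            _ = _ := by ring
      _ = (2 * (H : ℝ)) ^ (2 * k) * (4 * k + 1) ^ (PJ Z).card := by
          rw [← sum_mul, ← add_pow]
          congr 2
          ring
  have e6 := (abs_le.1 e5).2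
  rw [← e4] at e6
  linarith

end Pool.Agent.T2H62.MG
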