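import Pool.Agent.T2H62.MG.A

set_option autoImplicit false

/-! # The moment bound -/

namespace Pool.Agent.T2H62.MG

open Finset Filter Topology
open Pool.Agent.T2H62.MD
open Pool.Agent.T2H62.ME (PP PP_nonneg)
open Pool.Agent.T2H31.HV (PN Pt Ev Dep sv PF EF mf al be mem_PN Ev_eq_of_dep T_FIN T_MOM T_BV T_ANO)

theorem sv_ind (Z N₀ : ℕ) (hZ : Z ≤ N₀) (b : ℕ → ℕ) (n : ℕ) :
    sv (fun _ => Z) 1 N₀ b n = ind (∀ p ∈ PJ Z, n % p ≠ b p) := by
  classical
  have h0 : (∀ p ∈ PN N₀, (p ≤ Z ∨ p ∣ 1) → n % p ≠ b p) ↔ ∀ p ∈ PJ Z, n % p ≠ b p := by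
    constructor
    · intro h1 p hp
      have h2 := hp
      unfold PJ at h2
      rw [mem_filter, mem_Icc] at h2
      exact h1 p ((mem_PN N₀ p).2 ⟨h2.1.2.trans hZ, h2.2⟩) (Or.inl h2.1.2)
    · intro h1 p hp h2
      have h3 := (mem_PN N₀ p).1 hp
      rcases h2 with h2 | h2
      · apply h1 p
        unfold PJ
        rw [mem_filter, mem_Icc]
        exact ⟨⟨h3.2.one_le, h2⟩, h3.2⟩
      · exact absurd (Nat.dvd_one.1 h2) h3.2.one_lt.ne'
  unfold sv
  by_cases h1 : ∀ p ∈ PJ Z, n % p ≠ b p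
  · rw [ind_pos h1, if_pos (h0.2 h1)]
  · rw [ind_neg h1, if_neg (fun h2 => h1 (h0.1 h2))]

theorem win_sum (t₀ H : ℕ) (ht : 3 ≤ t₀) (g : ℕ → ℝ) :
    ∑ n ∈ Ico 3 (t₀ + H + 1), (if t₀ < n then (1 : ℝ) else 0) * g n = ∑ i ∈ Icc 1 H, g (t₀ + i) := by
  have h1 : ∑ n ∈ Ico 3 (t₀ + H + 1), (if t₀ < n then (1 : ℝ) else 0) * g n = ∑ n ∈ (Ico 3 (t₀ + H + 1)).filter (fun n => t₀ < n), g n := by
    rw [sum_filter]
    refine sum_congr rfl fun n _ => ?_
    split_ifs <;> simp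
  rw [h1]
  symm
  apply sum_nbij (fun i => t₀ + i)
  · intro i hi
    rw [mem_Icc] at hi
    rw [mem_filter, mem_Ico]
    omega
  · intro a _ b _ hab
    exact Nat.add_left_cancel hab
  · intro n hn
    rw [mem_coe, mem_filter, mem_Ico] at hn
    refine ⟨n - t₀, ?_, ?_⟩
    · rw [mem_coe, mem_Icc]
      omega
    · show t₀ + (n - t₀) = n
      omega
  · intro i _
    rfl

theorem PF_win (Z h H : ℕ) (b : ℕ → ℕ) :
    PF (fun _ => Z) 1 h (Z + 3 + H + h) (fun n => if Z + 3 < n then 1 else 0) b =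
      WS (fun m => ∀ p ∈ PJ Z, m % p ≠ b p) h H (Z + 3) := by
  unfold PF WS
  have e1 : Z + 3 + H + h + 1 - h = Z + 3 + H + 1 := by omega
  rw [e1, win_sum (Z + 3) H (by omega) (fun n => sv (fun _ => Z) 1 (Z + 3 + H + h) b n * sv (fun _ => Z) 1 (Z + 3 + H + h) b (n + h))]
  refine sum_congr rfl fun i _ => ?_
  rw [sv_ind Z _ (by omega), sv_ind Z _ (by omega)]

theorem EF_win (Z h H : ℕ) :
    EF (fun _ => Z) 1 h (Z + 3 + H + h) (fun n => if Z + 3 < n then 1 else 0) = H * PP Z h := by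
  classical
  unfold EF
  have e1 : Z + 3 + H + h + 1 - h = Z + 3 + H + 1 := by omega
  rw [e1, win_sum (Z + 3) H (by omega) (fun n => ∏ p ∈ PN (Z + 3 + H + h), mf (fun _ => Z) 1 h n p)]
  have e2 : ∀ n : ℕ, ∏ p ∈ PN (Z + 3 + H + h), mf (fun _ => Z) 1 h n p = PP Z h := by
    intro n
    unfold PP
    symm
    have hsub : PJ Z ⊆ PN (Z + 3 + H + h) := by
      intro p hp
      rw [mem_PN]
      unfold PJ at hp
      rw [mem_filter, mem_Icc] at hp
      exact ⟨by omega, hp.2⟩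
    apply prod_subset_one_on_sdiff hsub
    · intro p hp
      rw [Finset.mem_sdiff, mem_PN] at hp
      have h1 : ¬ p ≤ Z := by
        intro h2
        apply hp.2
        unfold PJ
        rw [mem_filter, mem_Icc]
        exact ⟨⟨hp.1.2.one_le, h2⟩, hp.1.2⟩
      have h2 : ¬ p ∣ 1 := fun h3 => hp.1.2.one_lt.ne' (Nat.dvd_one.1 h3)
      unfold mf al be
      rw [if_neg (by tauto), if_neg (by tauto)]
      simp
    · intro p hp
      have h3 : p ≤ Z := by
        unfold PJ at hp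
        rw [mem_filter, mem_Icc] at hp
        exact hp.1.2
      unfold mf al be
      by_cases h1 : p ∣ h
      · rw [if_pos h1, if_neg (by tauto), if_pos (Or.inl h3)]
        norm_num
      · rw [if_neg h1, if_pos ⟨Or.inl h3, h1⟩, if_pos (Or.inl h3)]
        norm_num
  simp only [e2, sum_const, Nat.card_Icc, nsmul_eq_mul]
  norm_num

/-- the constant in the moment bound -/
noncomputable def Kk (k : ℕ) : ℕ := ⌈(1 + √6) ^ (2 * k)⌉₊

theorem mom_ev (Z h H k : ℕ) :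
    Ev (PN (Z + 3 + H + h)) (fun c => (WS (fun m => ∀ p ∈ PJ Z, m % p ≠ c p) h H (Z + 3) - H * PP Z h) ^ (2 * k)) ≤
      (9 * ((Z + 3 + H + h : ℕ) + 1)) ^ k * (T2H32.BF.V (Z + 3 + H + h))⁻¹ ^ Kk k := by
  classical
  obtain ⟨N₀, hN₀⟩ : ∃ N₀, N₀ = Z + 3 + H + h := ⟨_, rfl⟩
  obtain ⟨F, h1, h2, h3, h4, h5⟩ := T_ANO T_BV (fun _ => Z) monotone_const 1 h N₀ 1 (fun n => if Z + 3 < n then 1 else 0)
    (by
      intro a b hab
      show (if Z + 3 < a then (1 : ℝ) else 0) ≤ (if Z + 3 < b then (1 : ℝ) else 0)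
      split_ifs with h6 h7
      · exact le_rfl
      · omega
      · exact zero_le_one
      · exact le_rfl) (by
      intro n
      show (0 : ℝ) ≤ (if Z + 3 < n then (1 : ℝ) else 0)
      split_ifs <;> norm_num) (by
      intro n _
      show (if Z + 3 < n then (1 : ℝ) else 0) ≤ 1
      split_ifs <;> norm_num)
  have hPN : ∀ p ∈ PN N₀, p.Prime := fun p hp => ((mem_PN N₀ p).1 hp).2
  have hX : ∀ b, WS (fun m => ∀ p ∈ PJ Z, m % p ≠ b p) h H (Z + 3) - H * PP Z h = ∑ s ∈ (PN N₀).powerset.erase ∅, F s b := by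
    intro b
    rw [← PF_win, ← EF_win, ← hN₀, h4, ← h5 b, ← add_sum_erase _ _ (empty_mem_powerset (PN N₀))]
    ring
  have hmom := T_MOM T_FIN (PN N₀) F (9 * 1 ^ 2 * (N₀ + 1)) 6 k (fun p hp => (hPN p hp).pos) (by positivity)
    (by norm_num) h1 h2 h3
  rw [← hN₀]
  simp only [hX]
  refine hmom.trans ?_
  have h6 := Pool.Agent.T2H31.HV.prod_le_V ((1 + √6) ^ (2 * k)) (by positivity) N₀
  rw [one_pow, mul_one]
  apply mul_le_mul le_rfl _ (prod_nonneg fun p _ => by positivity) (by positivity)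
  exact h6

theorem PP_le_one (z d : ℕ) : PP z d ≤ 1 := by
  unfold PP
  apply prod_le_one
  · intro p hp
    have h2 : (2 : ℝ) ≤ p := by exact_mod_cast (PJ_prime hp).two_le
    split_ifs
    · rw [sub_nonneg, div_le_one (by linarith)]
      linarith
    · rw [sub_nonneg, div_le_one (by linarith)]
      exact h2
  · intro p _
    have : (0 : ℝ) ≤ (if p ∣ d then (1 : ℝ) else 2) / p := by
      split_ifs <;> positivity
    linarith

/-- **the moment bound** for the windows `(n, n + H]`, `n ∈ (a, b]` -/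
theorem mom (Z h H k a b : ℕ) (hab : a ≤ b) :
    ∑ n ∈ Ioc a b, (WS (Rq Z) h H n - H * PP Z h) ^ (2 * k) ≤
      ((b : ℝ) - a) * ((9 * ((Z + 3 + H + h : ℕ) + 1)) ^ k * (T2H32.BF.V (Z + 3 + H + h))⁻¹ ^ Kk k) +
        (2 * (H : ℝ)) ^ (2 * k) * (4 * k + 1) ^ (PJ Z).card := by
  have hPP := PP_nonneg Z h
  have h1 := transfer Z (Z + 3 + H + h) (Z + 3) h H k a b (by omega) hab (H * PP Z h) (by positivity)
    (mul_le_of_le_one_right (Nat.cast_nonneg _) (PP_le_one Z h))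
  refine h1.trans ?_
  have h2 : (0 : ℝ) ≤ (b : ℝ) - a := by
    rw [sub_nonneg]
    exact_mod_cast hab
  have h3 := mul_le_mul_of_nonneg_left (mom_ev Z h H k) h2
  linarith

/-- pairs against the square of the density -/
theorem PP_low (Z h : ℕ) (hh : 2 ∣ h) : (T2H62.ME.V1 Z) ^ 3 ≤ PP Z h := by
  unfold T2H62.ME.V1 PP
  rw [← prod_pow]
  apply Finset.prod_le_prod
  · intro p hp
    have h2 : (2 : ℝ) ≤ p := by exact_mod_cast (PJ_prime hp).two_le
    have h3 : (p : ℝ)⁻¹ ≤ 1 := by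
      rw [inv_le_one₀ (by linarith)]
      linarith
    exact pow_nonneg (by linarith) 3
  · intro p hp
    have hp' := PJ_prime hp
    have h2 : (2 : ℝ) ≤ p := by exact_mod_cast hp'.two_le
    have h3 : (p : ℝ)⁻¹ ≤ 1 := by
      rw [inv_le_one₀ (by linarith)]
      linarith
    have h4 : 0 < (p : ℝ)⁻¹ := by positivity
    split_ifs with h5
    · rw [one_div]
      have h6 : 0 ≤ 1 - (p : ℝ)⁻¹ := by linarith
      have h7 : (1 - (p : ℝ)⁻¹) ^ 3 ≤ (1 - (p : ℝ)⁻¹) ^ 1 := pow_le_pow_of_le_one h6 (by linarith) (by norm_num)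
      linarith
    · have h6 : 3 ≤ p := by
        rcases hp'.eq_two_or_odd with h7 | h7
        · rw [h7] at h5
          exact absurd hh h5
        · have := hp'.two_le
          omega
      have h7 : (p : ℝ)⁻¹ ≤ 1 / 3 := by
        rw [inv_le_comm₀ (by linarith) (by norm_num)]
        have : (3 : ℝ) ≤ p := by exact_mod_cast h6
        linarith
      rw [div_eq_mul_inv]
      nlinarith [mul_pos h4 h4, mul_nonneg h4.le (show 0 ≤ 1 / 3 - (p : ℝ)⁻¹ by linarith)]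

end Pool.Agent.T2H62.MG
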