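import Pool.Agent.T2H62.MG.B
import Pool.Agent.T2H62.MM.E

set_option autoImplicit false

/-! # Few windows are bad -/

namespace Pool.Agent.T2H62.MG

open Finset Filter Topology
open Pool.Agent.T2H62.MD
open Pool.Agent.T2H62.MM (V_VV tlog loglog_small VV_tendsto' GG_pos)
open Pool.Agent.T2H53.GW
open Pool.Agent.T2H62.ME (PP PP_nonneg V1 V1_VV V1_bd)
open Pool.Agent.H305R2 (VV)

/-- the product is small for polylogarithmic levels -/
theorem VV_small (B : ℕ) (η : ℝ) (hη : 0 < η) : ∀ᶠ M : ℕ in atTop, ∀ j : ℕ, (j : ℝ) ≤ Real.log M ^ B → VV j ≤ Real.log M ^ η := by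
  have hG := GG_pos
  have h1 : ∀ᶠ j : ℕ in atTop, VV j ≤ 2 * GG * Real.log j := by
    filter_upwards [VV_tendsto'.eventually_lt_const (show GG < 2 * GG by linarith), eventually_ge_atTop 2] with j h1 h2
    have hl : 0 < Real.log (j : ℝ) := Real.log_pos (by exact_mod_cast (by omega : 1 < j))
    rw [div_lt_iff₀ hl] at h1
    exact h1.le
  have ht : Tendsto (fun M : ℕ => ⌊Real.log (M : ℝ) ^ (B + 1)⌋₊) atTop atTop :=
    tendsto_nat_floor_atTop.comp ((tendsto_pow_atTop (by omega)).comp tlog)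
  filter_upwards [ht.eventually h1, tlog.eventually_ge_atTop 1, loglog_small (2 * GG * (B + 1)) η hη (by positivity)] with M h2 h3 h4 j hj
  have hL0 : 0 < Real.log (M : ℝ) := by linarith
  have h5 : j ≤ ⌊Real.log (M : ℝ) ^ (B + 1)⌋₊ := by
    apply Nat.le_floor
    refine hj.trans ?_
    exact pow_le_pow_right₀ h3 (by omega)
  refine (VV_mono h5).trans (h2.trans (le_trans ?_ h4))
  have h6 : Real.log (⌊Real.log (M : ℝ) ^ (B + 1)⌋₊ : ℝ) ≤ (B + 1) * Real.log (Real.log M) := by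
    have h7 : ((⌊Real.log (M : ℝ) ^ (B + 1)⌋₊ : ℕ) : ℝ) ≤ Real.log (M : ℝ) ^ (B + 1) := Nat.floor_le (by positivity)
    have h8 : (1 : ℝ) ≤ (⌊Real.log (M : ℝ) ^ (B + 1)⌋₊ : ℕ) := by
      have : 1 ≤ ⌊Real.log (M : ℝ) ^ (B + 1)⌋₊ := Nat.le_floor (by
        rw [Nat.cast_one]
        exact one_le_pow₀ h3)
      exact_mod_cast this
    calc Real.log (⌊Real.log (M : ℝ) ^ (B + 1)⌋₊ : ℝ) ≤ Real.log (Real.log (M : ℝ) ^ (B + 1)) := Real.log_le_log (by linarith) h7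
      _ = _ := by rw [Real.log_pow]; push_cast; ring
  calc 2 * GG * Real.log (⌊Real.log (M : ℝ) ^ (B + 1)⌋₊ : ℝ) ≤ 2 * GG * ((B + 1) * Real.log (Real.log M)) :=
        mul_le_mul_of_nonneg_left h6 (by positivity)
    _ = _ := by ring

theorem prime_pow_small (c : ℝ) (hc : 1 ≤ c) (A' : ℝ) (hA : 0 < A') : ∀ᶠ M : ℕ in atTop, ∀ Z : ℕ, (Z : ℝ) ≤ A' * Real.log M →
    c ^ (PJ Z).card ≤ (M : ℝ) ^ (1 / 2 : ℝ) := by
  have hlc : 0 ≤ Real.log c := Real.log_nonneg hc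
  obtain ⟨δ, hδ⟩ : ∃ δ, δ = 1 / (2 * A' * (Real.log c + 1)) := ⟨_, rfl⟩
  have hδ0 : 0 < δ := by rw [hδ]; positivity
  have ht : Tendsto (fun M : ℕ => ⌊A' * Real.log (M : ℝ)⌋₊) atTop atTop :=
    tendsto_nat_floor_atTop.comp (tlog.const_mul_atTop hA)
  filter_upwards [ht.eventually (pi_small δ hδ0), tlog.eventually_ge_atTop 1, eventually_ge_atTop 1] with M h1 h2 h3 Z hZ
  have hM0 : (0 : ℝ) < M := by exact_mod_cast h3
  have h4 : Z ≤ ⌊A' * Real.log (M : ℝ)⌋₊ := Nat.le_floor hZ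
  have h5 : ((PJ Z).card : ℝ) ≤ δ * (A' * Real.log M) := by
    have h6 : ((PJ Z).card : ℝ) ≤ ((PJ ⌊A' * Real.log (M : ℝ)⌋₊).card : ℝ) := by exact_mod_cast PJ_mono h4
    refine h6.trans (h1.trans ?_)
    exact mul_le_mul_of_nonneg_left (Nat.floor_le (by positivity)) hδ0.le
  rw [← Real.rpow_natCast, Real.rpow_def_of_pos (by linarith), Real.rpow_def_of_pos hM0]
  apply Real.exp_le_exp.2
  calc Real.log c * ((PJ Z).card : ℝ) ≤ Real.log c * (δ * (A' * Real.log M)) := mul_le_mul_of_nonneg_left h5 hlc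
    _ ≤ (Real.log c + 1) * (δ * (A' * Real.log M)) := mul_le_mul_of_nonneg_right (by linarith) (by positivity)
    _ = Real.log M * (1 / 2) := by
        rw [hδ]
        field_simp

/-- the number of the bad windows -/
noncomputable def Bad (Z h H : ℕ) (ε : ℝ) (a b : ℕ) : ℕ := by
  classical exact ((Ioc a b).filter (fun n => ε * (H * PP Z h) < |WS (Rq Z) h H n - H * PP Z h|)).card

theorem bad_cheb (Z h H : ℕ) (ε : ℝ) (hε : 0 < ε) (k a b : ℕ) :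
    (Bad Z h H ε a b : ℝ) * (ε * (H * PP Z h)) ^ (2 * k) ≤ ∑ n ∈ Ioc a b, (WS (Rq Z) h H n - H * PP Z h) ^ (2 * k) := by
  classical
  have hPP := PP_nonneg Z h
  have hev : ∀ x : ℝ, 0 ≤ x ^ (2 * k) := fun x => by rw [pow_mul]; positivity
  unfold Bad
  calc (((Ioc a b).filter (fun n => ε * (H * PP Z h) < |WS (Rq Z) h H n - H * PP Z h|)).card : ℝ) * (ε * (H * PP Z h)) ^ (2 * k) =
        ∑ n ∈ (Ioc a b).filter (fun n => ε * (H * PP Z h) < |WS (Rq Z) h H n - H * PP Z h|), (ε * (H * PP Z h)) ^ (2 * k) := by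
        rw [sum_const, nsmul_eq_mul]
    _ ≤ ∑ n ∈ (Ioc a b).filter (fun n => ε * (H * PP Z h) < |WS (Rq Z) h H n - H * PP Z h|), (WS (Rq Z) h H n - H * PP Z h) ^ (2 * k) := by
        apply sum_le_sum
        intro n hn
        rw [mem_filter] at hn
        rw [← Even.pow_abs (even_two_mul k) (WS (Rq Z) h H n - H * PP Z h)]
        exact pow_le_pow_left₀ (by positivity) hn.2.le _
    _ ≤ _ := sum_le_sum_of_subset_of_nonneg (filter_subset _ _) fun n _ _ => hev _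

/-- **few windows are bad** -/
theorem bad_few (A' : ℝ) (hA : 0 < A') (h : ℕ) (hh : 2 ∣ h) (ε : ℝ) (hε : 0 < ε) (B K : ℕ) : ∀ᶠ M : ℕ in atTop, ∀ Z H a b : ℕ,
    (Z : ℝ) ≤ A' * Real.log M → Real.log M ≤ H → (H : ℝ) ≤ Real.log M ^ B → a ≤ b → b ≤ a + 2 * M →
    (Bad Z h H ε a b : ℝ) ≤ M / Real.log M ^ K := by
  obtain ⟨k, hk⟩ : ∃ k, k = K + 1 := ⟨_, rfl⟩
  obtain ⟨C3, hC3⟩ : ∃ C3 : ℝ, C3 = 9 * (A' + 5 + h) := ⟨_, rfl⟩
  have hC30 : 0 < C3 := by rw [hC3]; positivity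
  obtain ⟨η, hη⟩ : ∃ η : ℝ, η = 1 / (4 * (6 * k + Kk k + 1)) := ⟨_, rfl⟩
  have hη0 : 0 < η := by rw [hη]; positivity
  have hηs : η * (6 * k + Kk k) ≤ 1 / 4 := by
    rw [hη, one_div, inv_mul_le_iff₀ (by positivity)]
    linarith
  have hp1 : ∀ᶠ M : ℕ in atTop, 4 * (C3 ^ k * (ε ^ (2 * k))⁻¹) ≤ Real.log M ^ (1 / 2 : ℝ) :=
    ((tendsto_rpow_atTop (show (0 : ℝ) < 1 / 2 by norm_num)).comp tlog).eventually_ge_atTop _
  filter_upwards [VV_small (B + 2) η hη0, prime_pow_small (4 * k + 1) (by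
      have : (0 : ℝ) ≤ k := Nat.cast_nonneg _
      linarith) A' hA, hp1, log_pow_small (K + 1) (2 * (2 / ε) ^ (2 * k)) (1 / 2) (by norm_num) (by positivity),
    tlog.eventually_ge_atTop 1, tlog.eventually_ge_atTop (A' + 5 + h), eventually_ge_atTop 1] with M f1 f2 f3 f4 f5 f6 f7 Z H a b hZ hH1 hH2 hab hb
  obtain ⟨L, hL⟩ : ∃ L, L = Real.log (M : ℝ) := ⟨_, rfl⟩
  rw [← hL] at f1 f2 f3 f4 f5 f6 hZ hH1 hH2 ⊢
  have hL0 : 0 < L := by linarith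
  have hM0 : (0 : ℝ) < M := by exact_mod_cast f7
  have hHr : (1 : ℝ) ≤ H := f5.trans hH1
  have hH0 : (0 : ℝ) < H := by linarith
  obtain ⟨N₀, hN₀⟩ : ∃ N₀, N₀ = Z + 3 + H + h := ⟨_, rfl⟩
  have hN1 : ((N₀ : ℕ) : ℝ) + 1 ≤ (A' + 5 + h) * H := by
    rw [hN₀]
    push_cast
    have b1 : (Z : ℝ) ≤ A' * H := hZ.trans (mul_le_mul_of_nonneg_left hH1 hA.le)
    have b2 : (h : ℝ) ≤ h * H := le_mul_of_one_le_right (Nat.cast_nonneg _) hHr
    nlinarith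
  have hN2 : (N₀ : ℝ) ≤ L ^ (B + 2) := by
    have b1 : (A' + 5 + h) * (H : ℝ) ≤ L * L ^ B := mul_le_mul f6 hH2 hH0.le hL0.le
    have b2 : L * L ^ B ≤ L ^ (B + 2) := by
      rw [← pow_succ']
      exact pow_le_pow_right₀ f5 (by omega)
    linarith
  have hVN : (T2H32.BF.V N₀)⁻¹ ≤ L ^ η := by
    have b1 : (T2H32.BF.V N₀)⁻¹ = VV N₀ := by
      have := V_VV N₀
      exact inv_eq_of_mul_eq_one_right this
    rw [b1]
    exact f1 N₀ hN2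
  have hVZ : VV Z ≤ L ^ η := by
    apply f1
    have b1 : (Z : ℝ) ≤ N₀ := by exact_mod_cast (by omega : Z ≤ N₀)
    linarith
  have hV1 : (L ^ η)⁻¹ ≤ V1 Z := by
    have b1 := V1_VV Z
    have b2 : 0 < VV Z := by linarith [one_le_VV Z]
    have b3 : V1 Z = (VV Z)⁻¹ := eq_inv_of_mul_eq_one_right b1
    rw [b3]
    exact inv_anti₀ b2 hVZ
  have hLη : 0 < L ^ η := Real.rpow_pos_of_pos hL0 _
  have hPP : ((L ^ η)⁻¹) ^ 3 ≤ PP Z h := (pow_le_pow_left₀ (by positivity) hV1 3).trans (PP_low Z h hh)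
  have hPP0 : 0 < PP Z h := lt_of_lt_of_le (by positivity) hPP
  -- the bound
  have h1 := (bad_cheb Z h H ε hε k a b).trans (mom Z h H k a b hab)
  rw [← hN₀] at h1
  obtain ⟨X, hX⟩ : ∃ X, X = (ε * ((H : ℝ) * PP Z h)) ^ (2 * k) := ⟨_, rfl⟩
  have hX0 : 0 < X := by rw [hX]; positivity
  obtain ⟨Y, hY⟩ : ∃ Y, Y = ε ^ (2 * k) * (H : ℝ) ^ (2 * k) * ((L ^ η)⁻¹) ^ (6 * k) := ⟨_, rfl⟩
  have hY0 : 0 < Y := by rw [hY]; positivity
  have hYX : Y ≤ X := by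
    rw [hY, hX, mul_pow, mul_pow, mul_assoc]
    apply mul_le_mul_of_nonneg_left _ (by positivity)
    apply mul_le_mul_of_nonneg_left _ (by positivity)
    calc ((L ^ η)⁻¹) ^ (6 * k) = (((L ^ η)⁻¹) ^ 3) ^ (2 * k) := by rw [← pow_mul]; congr 1; ring
      _ ≤ PP Z h ^ (2 * k) := pow_le_pow_left₀ (by positivity) hPP _
  rw [← hX] at h1
  have h2 : (Bad Z h H ε a b : ℝ) * Y ≤ 2 * M * ((C3 * H) ^ k * (L ^ η) ^ Kk k) + (2 * (H : ℝ)) ^ (2 * k) * (M : ℝ) ^ (1 / 2 : ℝ) := by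
    refine (mul_le_mul_of_nonneg_left hYX (Nat.cast_nonneg _)).trans (h1.trans ?_)
    have c0 : (0 : ℝ) ≤ (b : ℝ) - a := by rw [sub_nonneg]; exact_mod_cast hab
    have c1 : (b : ℝ) - a ≤ 2 * M := by
      have : (b : ℝ) ≤ a + 2 * M := by exact_mod_cast hb
      linarith
    have c2 : (9 * ((N₀ : ℕ) + 1 : ℝ)) ^ k ≤ (C3 * H) ^ k := by
      apply pow_le_pow_left₀ (by positivity)
      rw [hC3]
      linarith
    have hV0 : 0 ≤ (T2H32.BF.V N₀)⁻¹ := inv_nonneg.2 (T2H32.BF.V_pos N₀).le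
    have c3 : (T2H32.BF.V N₀)⁻¹ ^ Kk k ≤ (L ^ η) ^ Kk k := pow_le_pow_left₀ hV0 hVN _
    apply add_le_add
    · apply mul_le_mul c1 _ (by positivity) (by positivity)
      exact mul_le_mul c2 c3 (by positivity) (by positivity)
    · exact mul_le_mul_of_nonneg_left (f2 Z hZ) (by positivity)
  -- divide by `Y`
  have hq : ((L ^ η)) ^ (6 * k) * (L ^ η) ^ Kk k ≤ L ^ (1 / 4 : ℝ) := by
    rw [← pow_add, ← Real.rpow_natCast, ← Real.rpow_mul hL0.le]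
    apply Real.rpow_le_rpow_of_exponent_le f5
    push_cast
    exact hηs
  have hq2 : ((L ^ η)) ^ (6 * k) ≤ L := by
    have b1 : (1 : ℝ) ≤ (L ^ η) ^ Kk k := one_le_pow₀ (Real.one_le_rpow f5 hη0.le)
    calc ((L ^ η)) ^ (6 * k) ≤ ((L ^ η)) ^ (6 * k) * (L ^ η) ^ Kk k := le_mul_of_one_le_right (by positivity) b1
      _ ≤ L ^ (1 / 4 : ℝ) := hq
      _ ≤ L ^ (1 : ℝ) := Real.rpow_le_rpow_of_exponent_le f5 (by norm_num)
      _ = L := Real.rpow_one _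
  have hHk : L ^ k ≤ (H : ℝ) ^ k := pow_le_pow_left₀ hL0.le hH1 _
  have h3 : 2 * M * ((C3 * H) ^ k * (L ^ η) ^ Kk k) ≤ (1 / 2 * (M / L ^ K)) * Y := by
    have e1 : (1 / 2 * (M / L ^ K)) * Y = M * (ε ^ (2 * k) / (2 * L ^ K)) * (H : ℝ) ^ (2 * k) * ((L ^ η)⁻¹) ^ (6 * k) := by
      rw [hY]
      field_simp
    rw [e1, inv_pow, ← div_eq_mul_inv, le_div_iff₀ (by positivity)]
    have e2 : 2 * M * ((C3 * H) ^ k * (L ^ η) ^ Kk k) * (L ^ η) ^ (6 * k) =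
        M * (H : ℝ) ^ k * (2 * C3 ^ k * ((L ^ η) ^ (6 * k) * (L ^ η) ^ Kk k)) := by
      rw [mul_pow]
      ring
    rw [e2]
    have e3 : M * (ε ^ (2 * k) / (2 * L ^ K)) * (H : ℝ) ^ (2 * k) = M * (H : ℝ) ^ k * (ε ^ (2 * k) / (2 * L ^ K) * (H : ℝ) ^ k) := by
      rw [two_mul k, pow_add (H : ℝ) k k]
      ring
    rw [e3]
    apply mul_le_mul_of_nonneg_left _ (by positivity)
    calc 2 * C3 ^ k * ((L ^ η) ^ (6 * k) * (L ^ η) ^ Kk k) ≤ 2 * C3 ^ k * L ^ (1 / 4 : ℝ) := mul_le_mul_of_nonneg_left hq (by positivity)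
      _ ≤ ε ^ (2 * k) / (2 * L ^ K) * L ^ k := by
          rw [div_mul_eq_mul_div, le_div_iff₀ (by positivity)]
          have g1 : 4 * (C3 ^ k * (ε ^ (2 * k))⁻¹) * L ^ (1 / 4 : ℝ) ≤ L ^ (1 / 2 : ℝ) * L ^ (1 / 4 : ℝ) :=
            mul_le_mul_of_nonneg_right f3 (by positivity)
          have g2 : L ^ (1 / 2 : ℝ) * L ^ (1 / 4 : ℝ) ≤ L := by
            rw [← Real.rpow_add hL0]
            calc L ^ (1 / 2 + 1 / 4 : ℝ) ≤ L ^ (1 : ℝ) := Real.rpow_le_rpow_of_exponent_le f5 (by norm_num)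
              _ = L := Real.rpow_one _
          have g3 : 4 * C3 ^ k * L ^ (1 / 4 : ℝ) ≤ ε ^ (2 * k) * L := by
            have g4 := mul_le_mul_of_nonneg_left (g1.trans g2) (show 0 ≤ ε ^ (2 * k) by positivity)
            have g5 : ε ^ (2 * k) * (4 * (C3 ^ k * (ε ^ (2 * k))⁻¹) * L ^ (1 / 4 : ℝ)) = 4 * C3 ^ k * L ^ (1 / 4 : ℝ) := by
              field_simp
            rwa [g5] at g4
          have g6 : L ^ k = L * L ^ K := by rw [hk, pow_succ']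
          rw [g6]
          calc 2 * C3 ^ k * L ^ (1 / 4 : ℝ) * (2 * L ^ K) = (4 * C3 ^ k * L ^ (1 / 4 : ℝ)) * L ^ K := by ring
            _ ≤ (ε ^ (2 * k) * L) * L ^ K := mul_le_mul_of_nonneg_right g3 (by positivity)
            _ = _ := by ring
      _ ≤ ε ^ (2 * k) / (2 * L ^ K) * (H : ℝ) ^ k := mul_le_mul_of_nonneg_left hHk (by positivity)
  have h4 : (2 * (H : ℝ)) ^ (2 * k) * (M : ℝ) ^ (1 / 2 : ℝ) ≤ (1 / 2 * (M / L ^ K)) * Y := by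
    have e1 : (1 / 2 * (M / L ^ K)) * Y = M * (ε ^ (2 * k) / (2 * L ^ K)) * (H : ℝ) ^ (2 * k) * ((L ^ η)⁻¹) ^ (6 * k) := by
      rw [hY]
      field_simp
    rw [e1, inv_pow, ← div_eq_mul_inv, le_div_iff₀ (by positivity)]
    calc (2 * (H : ℝ)) ^ (2 * k) * (M : ℝ) ^ (1 / 2 : ℝ) * (L ^ η) ^ (6 * k) ≤ (2 * (H : ℝ)) ^ (2 * k) * (M : ℝ) ^ (1 / 2 : ℝ) * L :=
          mul_le_mul_of_nonneg_left hq2 (by positivity)
      _ = (2 ^ (2 * k) * L * (M : ℝ) ^ (1 / 2 : ℝ)) * (H : ℝ) ^ (2 * k) := by rw [mul_pow]; ring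
      _ ≤ (M * (ε ^ (2 * k) / (2 * L ^ K))) * (H : ℝ) ^ (2 * k) := by
          apply mul_le_mul_of_nonneg_right _ (by positivity)
          rw [← mul_div_assoc, le_div_iff₀ (by positivity)]
          have g1 : (M : ℝ) = (M : ℝ) ^ (1 / 2 : ℝ) * (M : ℝ) ^ (1 / 2 : ℝ) := by
            rw [← Real.rpow_add hM0]
            norm_num
          have g2 : 2 ^ (2 * k) * L * (2 * L ^ K) ≤ ε ^ (2 * k) * (M : ℝ) ^ (1 / 2 : ℝ) := by
            have g3 := mul_le_mul_of_nonneg_left f4 (show 0 ≤ ε ^ (2 * k) by positivity)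
            have g4 : ε ^ (2 * k) * (2 * (2 / ε) ^ (2 * k) * L ^ (K + 1)) = 2 ^ (2 * k) * L * (2 * L ^ K) := by
              rw [div_pow, pow_succ L K]
              field_simp
            rwa [g4] at g3
          calc 2 ^ (2 * k) * L * (M : ℝ) ^ (1 / 2 : ℝ) * (2 * L ^ K) = (2 ^ (2 * k) * L * (2 * L ^ K)) * (M : ℝ) ^ (1 / 2 : ℝ) := by ring
            _ ≤ (ε ^ (2 * k) * (M : ℝ) ^ (1 / 2 : ℝ)) * (M : ℝ) ^ (1 / 2 : ℝ) := mul_le_mul_of_nonneg_right g2 (by positivity)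
            _ = ((M : ℝ) ^ (1 / 2 : ℝ) * (M : ℝ) ^ (1 / 2 : ℝ)) * ε ^ (2 * k) := by ring
            _ = M * ε ^ (2 * k) := by rw [← g1]
  have h5 : (Bad Z h H ε a b : ℝ) * Y ≤ (M / L ^ K) * Y := by
    have : (M / L ^ K) * Y = (1 / 2 * (M / L ^ K)) * Y + (1 / 2 * (M / L ^ K)) * Y := by ring
    linarith
  exact le_of_mul_le_mul_right h5 hY0

end Pool.Agent.T2H62.MG
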