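import Pool.Agent.T2H62.MG.C
import Pool.Agent.T2H62.ME.F
import Pool.Agent.T2H62.MS.C

set_option autoImplicit false

/-! # The probabilities in terms of the rough numbers -/

namespace Pool.Agent.T2H62.MG

open Finset Filter Topology MeasureTheory ProbabilityTheory
open Pool.Agent.T2H62.MD
open Pool.Agent.T2H62.MM (V_VV tlog loglog_small VV_tendsto' GG_pos)
open Pool.Agent.T2H53.GW
open Pool.Agent.T2H62.ME (PP PP_nonneg V1 V1_VV V1_bd Mw)
open Pool.Agent.H305R2 (VV)

/-- the lower level -/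
noncomputable def za (A : ℝ) (N : ℕ) : ℕ := ⌊A * Real.log (N : ℝ)⌋₊
/-- the upper level -/
noncomputable def zb (A : ℝ) (N : ℕ) : ℕ := ⌊A * Real.log (4 * (N : ℝ))⌋₊

theorem za_tendsto {A : ℝ} (hA : 0 < A) : Tendsto (za A) atTop atTop :=
  tendsto_nat_floor_atTop.comp (tlog.const_mul_atTop hA)

theorem za_zb {A : ℝ} (hA : 0 < A) (N : ℕ) (hN : 1 ≤ N) : za A N ≤ zb A N := by
  have hN0 : (0 : ℝ) < N := by exact_mod_cast hN
  unfold za zb
  apply Nat.floor_le_floor
  apply mul_le_mul_of_nonneg_left _ hA.le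
  exact Real.log_le_log hN0 (by linarith)

theorem zb_le {A : ℝ} (hA : 0 < A) : ∀ᶠ N : ℕ in atTop, zb A N ≤ 2 * za A N ∧ (zb A N : ℝ) ≤ 2 * A * Real.log N := by
  filter_upwards [tlog.eventually_ge_atTop (2 / A + 4), eventually_ge_atTop 1] with N h1 h2
  have hN0 : (0 : ℝ) < N := by exact_mod_cast h2
  have h3 : Real.log (4 * (N : ℝ)) = Real.log 4 + Real.log N := Real.log_mul (by norm_num) hN0.ne'
  have h4 : Real.log 4 ≤ 2 := by
    have : Real.log 4 = 2 * Real.log 2 := by
      rw [show (4 : ℝ) = 2 ^ 2 by norm_num, Real.log_pow]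
      norm_num
    rw [this]
    have := Real.log_two_lt_d9
    linarith
  have h5 : 0 < 2 / A := by positivity
  have h6 : 0 ≤ Real.log (4 * (N : ℝ)) := Real.log_nonneg (by
    have : (1 : ℝ) ≤ N := by exact_mod_cast h2
    linarith)
  have h7 : (zb A N : ℝ) ≤ A * Real.log (4 * (N : ℝ)) := by
    unfold zb
    exact Nat.floor_le (by positivity)
  have h8 : A * (2 / A) = 2 := by field_simp
  have h9 : A * Real.log N < za A N + 1 := by
    unfold za
    exact Nat.lt_floor_add_one _
  have h10 : A * (2 / A + 4) ≤ A * Real.log N := mul_le_mul_of_nonneg_left h1 hA.le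
  have h11 : A * Real.log 4 ≤ A * 2 := mul_le_mul_of_nonneg_left h4 hA.le
  rw [h3, mul_add] at h7
  constructor
  · have h12 : (zb A N : ℝ) ≤ 2 * za A N := by nlinarith
    exact_mod_cast h12
  · nlinarith

theorem VV_ab {A : ℝ} (hA : 0 < A) : Tendsto (fun N => VV (zb A N) / VV (za A N)) atTop (𝓝 1) :=
  VV_ratio (za_tendsto hA) (by
    filter_upwards [zb_le hA, eventually_ge_atTop 1] with N h1 h2
    exact ⟨za_zb hA N h2, h1.1⟩)

theorem log4_ratio : Tendsto (fun N : ℕ => Real.log (4 * (N : ℝ)) / Real.log N) atTop (𝓝 1) := by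
  have h1 : Tendsto (fun N : ℕ => Real.log 4 / Real.log (N : ℝ) + 1) atTop (𝓝 (0 + 1)) :=
    (Tendsto.const_div_atTop tlog _).add tendsto_const_nhds
  rw [zero_add] at h1
  refine h1.congr' ?_
  filter_upwards [tlog.eventually_gt_atTop 0, eventually_ge_atTop 1] with N h2 h3
  have hN0 : (0 : ℝ) < N := by exact_mod_cast h3
  rw [Real.log_mul (by norm_num) hN0.ne', add_div, div_self h2.ne']

/-- upper bound for the probabilities -/
theorem pr_hi {A : ℝ} (hA : 0 < A) (N m : ℕ) (hN : 3 ≤ N) (h1 : N < m) (h2 : m ≤ 4 * N) :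
    pr A m ≤ (VV (zb A N) / Real.log N) * ind (Rq (za A N) m) := by
  classical
  have hN0 : (0 : ℝ) < N := by exact_mod_cast (by omega : 0 < N)
  have hm0 : (0 : ℝ) < m := by exact_mod_cast (by omega : 0 < m)
  have hlN : 0 < Real.log (N : ℝ) := Real.log_pos (by exact_mod_cast (by omega : 1 < N))
  have hlm : Real.log (N : ℝ) ≤ Real.log m := Real.log_le_log hN0 (by exact_mod_cast h1.le)
  have hV := one_le_VV (zb A N)
  unfold pr
  split_ifs with h3
  · have h4 : Rq (za A N) m := by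
      intro p hp
      unfold PJ at hp
      rw [mem_filter, mem_Icc] at hp
      apply h3 p hp.2
      have h5 : (p : ℝ) ≤ za A N := by exact_mod_cast hp.1.2
      have h6 : (za A N : ℝ) ≤ A * Real.log N := by
        unfold za
        exact Nat.floor_le (by positivity)
      have h7 : A * Real.log (N : ℝ) ≤ A * Real.log m := mul_le_mul_of_nonneg_left hlm hA.le
      linarith
    rw [ind_pos h4, mul_one]
    refine (min_le_right _ _).trans ?_
    have h5 : VV ⌊A * Real.log m⌋₊ ≤ VV (zb A N) := by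
      apply VV_mono
      unfold zb
      apply Nat.floor_le_floor
      apply mul_le_mul_of_nonneg_left _ hA.le
      exact Real.log_le_log hm0 (by exact_mod_cast h2)
    have h6 := one_le_VV ⌊A * Real.log (m : ℝ)⌋₊
    exact div_le_div₀ (by linarith) h5 hlN hlm
  · exact mul_nonneg (by positivity) (ind_bd _).1

/-- lower bound for the probabilities -/
theorem pr_lo {A : ℝ} (hA : 0 < A) : ∃ a₀ : ℕ, 3 ≤ a₀ ∧ ∀ N m : ℕ, a₀ ≤ N → N < m → m ≤ 4 * N →
    (VV (za A N) / Real.log (4 * N)) * ind (Rq (zb A N) m) ≤ pr A m := by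
  classical
  obtain ⟨a₀, h0, hpr⟩ := Pool.Agent.T2H62.MS.pr_ge_block hA
  refine ⟨a₀ + 3, by omega, fun N m hN h1 h2 => ?_⟩
  by_cases h3 : Rq (zb A N) m
  · rw [ind_pos h3, mul_one]
    have hN0 : (0 : ℝ) < N := by exact_mod_cast (by omega : 0 < N)
    have hm0 : (0 : ℝ) < m := by exact_mod_cast (by omega : 0 < m)
    have hlN : 0 < Real.log (N : ℝ) := Real.log_pos (by exact_mod_cast (by omega : 1 < N))
    have hlm : Real.log (N : ℝ) ≤ Real.log m := Real.log_le_log hN0 (by exact_mod_cast h1.le)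
    have hl4 : Real.log (m : ℝ) ≤ Real.log (4 * N) := Real.log_le_log hm0 (by exact_mod_cast h2)
    have h4 := hpr m _ (by omega) rfl
    have hr : ∀ p ∈ PJ ⌊A * Real.log (m : ℝ)⌋₊, ¬ p ∣ m := by
      intro p hp
      apply h3 p
      have h5 : ⌊A * Real.log (m : ℝ)⌋₊ ≤ zb A N := by
        unfold zb
        apply Nat.floor_le_floor
        exact mul_le_mul_of_nonneg_left hl4 hA.le
      exact PJ_sub h5 hp
    rw [if_pos hr] at h4
    refine le_trans ?_ h4
    rw [mul_one_div]
    have h5 : VV (za A N) ≤ VV ⌊A * Real.log (m : ℝ)⌋₊ := by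
      apply VV_mono
      unfold za
      apply Nat.floor_le_floor
      exact mul_le_mul_of_nonneg_left hlm hA.le
    have h6 := one_le_VV (za A N)
    exact div_le_div₀ (by linarith) h5 (by linarith) hl4
  · rw [ind_neg h3, mul_zero]
    exact pr_nonneg A m

/-- **the mean number of random primes in most windows** -/
theorem mean_few {A : ℝ} (hA : 0 < A) (B K : ℕ) : ∀ᶠ N : ℕ in atTop, ∀ H : ℕ, Real.log N ≤ H → (H : ℝ) ≤ Real.log N ^ B →
    (((Ioc N (2 * N)).filter (fun n => Mw A H n < 1 / 2 * (H / Real.log N))).card : ℝ) ≤ N / Real.log N ^ K := by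
  classical
  obtain ⟨a₀, ha₀, hpr⟩ := pr_lo hA
  have hr : ∀ᶠ N : ℕ in atTop, 2 / 3 < (3 / 4 * (VV (zb A N) / VV (za A N))⁻¹) * (Real.log (4 * (N : ℝ)) / Real.log N)⁻¹ := by
    have h1 := (((VV_ab hA).inv₀ one_ne_zero).const_mul (3 / 4)).mul (log4_ratio.inv₀ one_ne_zero)
    apply h1.eventually_const_lt
    norm_num
  filter_upwards [bad_few (2 * A) (by positivity) 0 (dvd_zero 2) (1 / 4) (by norm_num) B K, zb_le hA, hr,
    eventually_ge_atTop a₀, log_pow_small B 1 1 one_pos one_pos, tlog.eventually_ge_atTop 1] with N h1 h2 h3 h4 h5 h6 H hH1 hH2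
  have hN0 : (0 : ℝ) < N := by exact_mod_cast (by omega : 0 < N)
  have hlN : 0 < Real.log (N : ℝ) := by linarith
  have hl4 : 0 < Real.log (4 * (N : ℝ)) := Real.log_pos (by
    have : (3 : ℝ) ≤ N := by exact_mod_cast (ha₀.trans h4)
    linarith)
  have hHN : H ≤ N := by
    rw [one_mul, Real.rpow_one] at h5
    exact_mod_cast hH2.trans h5
  refine le_trans ?_ (h1 (zb A N) H N (2 * N) h2.2 hH1 hH2 (by omega) (by omega))
  unfold Bad
  have hsub : ((Ioc N (2 * N)).filter (fun n => Mw A H n < 1 / 2 * (H / Real.log N))) ⊆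
      (Ioc N (2 * N)).filter (fun n => 1 / 4 * ((H : ℝ) * PP (zb A N) 0) < |WS (Rq (zb A N)) 0 H n - H * PP (zb A N) 0|) := by
    intro n hn
    rw [mem_filter] at hn ⊢
    refine ⟨hn.1, ?_⟩
    rw [mem_Ioc] at hn
    by_contra hcon
    push Not at hcon
    have c1 := (abs_le.1 hcon).1
    have c2 : 3 / 4 * ((H : ℝ) * PP (zb A N) 0) ≤ WS (Rq (zb A N)) 0 H n := by linarith
    have c3 : (VV (za A N) / Real.log (4 * N)) * WS (Rq (zb A N)) 0 H n ≤ Mw A H n := by
      unfold WS Mw
      rw [mul_sum]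
      apply sum_le_sum
      intro i hi
      rw [mem_Icc] at hi
      refine le_trans ?_ (hpr N (n + i) h4 (by omega) (by omega))
      apply mul_le_mul_of_nonneg_left _ (by have := one_le_VV (za A N); positivity)
      rw [add_zero]
      exact mul_le_of_le_one_right (ind_bd _).1 (ind_bd _).2
    have c4 : PP (zb A N) 0 = (VV (zb A N))⁻¹ := by
      have : PP (zb A N) 0 = V1 (zb A N) := by
        unfold PP V1
        refine prod_congr rfl fun p _ => ?_
        rw [if_pos (dvd_zero p), one_div]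
      rw [this]
      exact eq_inv_of_mul_eq_one_right (V1_VV _)
    have hVa : 0 < VV (za A N) := by linarith [one_le_VV (za A N)]
    have hVb : 0 < VV (zb A N) := by linarith [one_le_VV (zb A N)]
    have c5 : (3 / 4 * (VV (zb A N) / VV (za A N))⁻¹) * (Real.log (4 * (N : ℝ)) / Real.log N)⁻¹ * ((H : ℝ) / Real.log N) =
        (VV (za A N) / Real.log (4 * N)) * (3 / 4 * ((H : ℝ) * PP (zb A N) 0)) := by
      rw [c4]
      field_simp
    have c6 : (VV (za A N) / Real.log (4 * N)) * (3 / 4 * ((H : ℝ) * PP (zb A N) 0)) ≤ Mw A H n :=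
      (mul_le_mul_of_nonneg_left c2 (by positivity)).trans c3
    rw [← c5] at c6
    have hHL : 0 < (H : ℝ) / Real.log N := div_pos (by linarith) hlN
    have c7 : 2 / 3 * ((H : ℝ) / Real.log N) ≤ Mw A H n := (mul_le_mul_of_nonneg_right h3.le hHL.le).trans c6
    have := hn.2
    linarith
  have hcard := card_le_card hsub
  have e : ((Ioc N (2 * N)).filter (fun n => 1 / 4 * ((H : ℝ) * PP (zb A N) 0) < |WS (Rq (zb A N)) 0 H n - H * PP (zb A N) 0|)).card =
      (@Finset.filter ℕ (fun n => 1 / 4 * ((H : ℝ) * PP (zb A N) 0) < |WS (Rq (zb A N)) 0 H n - H * PP (zb A N) 0|)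
        (fun a => Classical.propDecidable _) (Ioc N (2 * N))).card := by
    congr
  rw [e] at hcard
  exact_mod_cast hcard

end Pool.Agent.T2H62.MG
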