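import Pool.Agent.T2H62.MG.D

set_option autoImplicit false

/-! # Almost surely, few long empty windows -/

namespace Pool.Agent.T2H62.MG

open Finset Filter Topology MeasureTheory ProbabilityTheory
open Pool.Agent.T2H62.MD
open Pool.Agent.T2H62.MM (tlog)
open Pool.Agent.T2H53.GW
open Pool.Agent.T2H62.ME (Mw Mw_nonneg Em prob_Em indep_compl mem_Em EmR LR LR_anti sum_up)

/-- a superpolynomially small bound -/
theorem tiny (B K : ℕ) : ∀ᶠ N : ℕ in atTop, ∀ H : ℕ, (H : ℝ) ≤ Real.log N ^ B →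
    (Real.log N ^ B + 1) * (((H : ℝ) + 1) * (2 * Real.exp (-((N / (Real.log N ^ K * ((H : ℝ) + 1))) ^ 2 / (4 * N))))) ≤ 1 / (N : ℝ) ^ 2 := by
  filter_upwards [log_pow_small (2 * K + 2 * B + 1) (4 * 5 * 4) (1 / 2) (by norm_num) (by norm_num), log_pow_small B 4 (1 / 4) (by norm_num) (by norm_num),
    tlog.eventually_ge_atTop 1, eventually_ge_atTop 3] with N h1 h2 h3 h4 H hH
  obtain ⟨L, hL⟩ : ∃ L, L = Real.log (N : ℝ) := ⟨_, rfl⟩
  rw [← hL] at h1 h2 h3 hH ⊢
  have hL0 : 0 < L := by linarith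
  have hN1 : (1 : ℝ) ≤ N := by exact_mod_cast (by omega : 1 ≤ N)
  have hN0 : (0 : ℝ) < N := by linarith
  have hLB : (1 : ℝ) ≤ L ^ B := one_le_pow₀ h3
  have hH1 : (H : ℝ) + 1 ≤ 2 * L ^ B := by linarith
  have hH0 : (0 : ℝ) < (H : ℝ) + 1 := by positivity
  have e1 : (N / (L ^ K * ((H : ℝ) + 1))) ^ 2 / (4 * N) = N / (4 * (L ^ (2 * K) * ((H : ℝ) + 1) ^ 2)) := by
    rw [pow_mul' L 2 K]
    field_simp
  have h5 : 5 * L ≤ (N / (L ^ K * ((H : ℝ) + 1))) ^ 2 / (4 * N) := by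
    rw [e1, le_div_iff₀ (by positivity)]
    calc 5 * L * (4 * (L ^ (2 * K) * ((H : ℝ) + 1) ^ 2)) ≤ 5 * L * (4 * (L ^ (2 * K) * (2 * L ^ B) ^ 2)) := by
          apply mul_le_mul_of_nonneg_left _ (by positivity)
          apply mul_le_mul_of_nonneg_left _ (by positivity)
          exact mul_le_mul_of_nonneg_left (pow_le_pow_left₀ hH0.le hH1 2) (by positivity)
      _ = 4 * 5 * 4 * L ^ (2 * K + 2 * B + 1) := by ring
      _ ≤ (N : ℝ) ^ (1 / 2 : ℝ) := h1
      _ ≤ (N : ℝ) ^ (1 : ℝ) := Real.rpow_le_rpow_of_exponent_le hN1 (by norm_num)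
      _ = N := Real.rpow_one _
  have h6 : Real.exp (-((N / (L ^ K * ((H : ℝ) + 1))) ^ 2 / (4 * N))) ≤ 1 / (N : ℝ) ^ 5 := by
    calc Real.exp (-((N / (L ^ K * ((H : ℝ) + 1))) ^ 2 / (4 * N))) ≤ Real.exp (-(5 * L)) := Real.exp_le_exp.2 (by linarith)
      _ = 1 / (N : ℝ) ^ 5 := by
          rw [hL, Real.exp_neg, one_div, mul_comm, Real.exp_mul, Real.exp_log hN0]
          norm_num
  have h7 : 4 * L ^ B ≤ N := by
    calc 4 * L ^ B ≤ (N : ℝ) ^ (1 / 4 : ℝ) := h2
      _ ≤ (N : ℝ) ^ (1 : ℝ) := Real.rpow_le_rpow_of_exponent_le hN1 (by norm_num)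
      _ = N := Real.rpow_one _
  calc (L ^ B + 1) * (((H : ℝ) + 1) * (2 * Real.exp (-((N / (L ^ K * ((H : ℝ) + 1))) ^ 2 / (4 * N))))) ≤
        (N : ℝ) * ((N : ℝ) * (2 * (1 / (N : ℝ) ^ 5))) := by
        apply mul_le_mul (by linarith) _ (by positivity) hN0.le
        apply mul_le_mul (by linarith) _ (by positivity) hN0.le
        linarith
    _ = 2 / N * (1 / (N : ℝ) ^ 2) := by field_simp
    _ ≤ 1 * (1 / (N : ℝ) ^ 2) := by
        apply mul_le_mul_of_nonneg_right _ (by positivity)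
        rw [div_le_one hN0]
        exact_mod_cast (by omega : 2 ≤ N)
    _ = 1 / (N : ℝ) ^ 2 := one_mul _

variable {Ω : Type*} [MeasurableSpace Ω] {μ : Measure Ω} [IsProbabilityMeasure μ] {S : ℕ → Set Ω}

theorem mean_tail {A : ℝ} (hA : 0 < A) (hm : ∀ n, MeasurableSet (S n)) (hi : iIndepSet S μ)
    (hp : ∀ n, μ.real (S n) = pr A n) (B K : ℕ) : ∀ᶠ N : ℕ in atTop, ∀ H : ℕ, Real.log N ≤ H → (H : ℝ) ≤ Real.log N ^ B →
    ∑ n ∈ Ioc N (2 * N), μ.real (Em S H n) ≤ N * Real.exp (-(1 / 2 * (H / Real.log N))) + N / Real.log N ^ K := by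
  classical
  filter_upwards [mean_few hA B K] with N h1 H hH1 hH2
  have h2 := h1 H hH1 hH2
  have h3 : ∀ n ∈ Ioc N (2 * N), μ.real (Em S H n) ≤ Real.exp (-(1 / 2 * (H / Real.log N))) +
      if Mw A H n < 1 / 2 * (H / Real.log N) then 1 else 0 := by
    intro n _
    split_ifs with h4
    · have := measureReal_le_one (μ := μ) (s := Em S H n)
      have := Real.exp_pos (-(1 / 2 * ((H : ℝ) / Real.log N)))
      linarith
    · rw [add_zero, prob_Em hm hi hp]
      push Not at h4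
      calc ∏ h ∈ Icc 1 H, (1 - pr A (n + h)) ≤ Real.exp (-(Mw A H n)) := by
            unfold Mw
            rw [← sum_neg_distrib, Real.exp_sum]
            apply Finset.prod_le_prod
            · intro i _
              linarith [pr_le_one A (n + i)]
            · intro i _
              have := Real.add_one_le_exp (-(pr A (n + i)))
              linarith
        _ ≤ _ := Real.exp_le_exp.2 (by linarith)
  refine (sum_le_sum h3).trans ?_
  rw [sum_add_distrib, sum_const, Nat.card_Ioc, nsmul_eq_mul, ← sum_filter, sum_const, nsmul_eq_mul, mul_one]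
  have e1 : 2 * N - N = N := by omega
  rw [e1]
  linarith

/-- **almost surely, few long empty windows** -/
theorem emp_tail {A : ℝ} (hA : 0 < A) (hm : ∀ n, MeasurableSet (S n)) (hi : iIndepSet S μ)
    (hp : ∀ n, μ.real (S n) = pr A n) (B K : ℕ) : ∀ᵐ ω ∂μ, ∀ᶠ N : ℕ in atTop, ∀ H : ℕ, Real.log N ≤ H → (H : ℝ) ≤ Real.log N ^ B →
      cnt (Ioc N (2 * N)) (Em S H) ω ≤ N * Real.exp (-(1 / 2 * (H / Real.log N))) + 2 * (N / Real.log N ^ K) := by
  classical
  obtain ⟨E, hE⟩ : ∃ E : ℕ → ℕ → Set Ω, E = fun N H : ℕ =>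
      {ω | ((H : ℝ) + 1) * (N / (Real.log N ^ K * ((H : ℝ) + 1))) < |cnt (Ioc N (2 * N)) (Em S H) ω - ∑ n ∈ Ioc N (2 * N), μ.real (Em S H n)|} := ⟨_, rfl⟩
  obtain ⟨Bd, hBd⟩ : ∃ Bd : ℕ → Set Ω, Bd = fun N : ℕ => ⋃ H ∈ range (⌊Real.log (N : ℝ) ^ B⌋₊ + 1), E N H := ⟨_, rfl⟩
  have hprob : ∀ᶠ N : ℕ in atTop, μ.real (Bd N) ≤ 1 / (N : ℝ) ^ 2 := by
    filter_upwards [tiny B K, tlog.eventually_ge_atTop 1, eventually_ge_atTop 3] with N h1 h2 h3
    have hN0 : (0 : ℝ) < N := by exact_mod_cast (by omega : 0 < N)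
    have hL0 : 0 < Real.log (N : ℝ) := by linarith
    have h4 : ∀ H ∈ range (⌊Real.log (N : ℝ) ^ B⌋₊ + 1), μ.real (E N H) ≤
        1 / (N : ℝ) ^ 2 / (Real.log N ^ B + 1) := by
      intro H hH
      rw [mem_range] at hH
      have hH2 : (H : ℝ) ≤ Real.log N ^ B := by
        have : (H : ℝ) ≤ (⌊Real.log (N : ℝ) ^ B⌋₊ : ℕ) := by exact_mod_cast (by omega : H ≤ ⌊Real.log (N : ℝ) ^ B⌋₊)
        exact this.trans (Nat.floor_le (by positivity))
      have hH0 : (0 : ℝ) < (H : ℝ) + 1 := by positivity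
      obtain ⟨t, ht⟩ : ∃ t : ℝ, t = N / (Real.log N ^ K * ((H : ℝ) + 1)) := ⟨_, rfl⟩
      have ht0 : 0 < t := by rw [ht]; positivity
      have htN : t ≤ N := by
        rw [ht, div_le_iff₀ (by positivity)]
        have b1 : (1 : ℝ) ≤ Real.log N ^ K := one_le_pow₀ h2
        have b2 : (1 : ℝ) ≤ (H : ℝ) + 1 := by
          have : (0 : ℝ) ≤ H := Nat.cast_nonneg _
          linarith
        have b3 : (1 : ℝ) ≤ Real.log N ^ K * ((H : ℝ) + 1) := one_le_mul_of_one_le_of_one_le b1 b2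
        exact le_mul_of_one_le_right hN0.le b3
      have hmean : ∑ n ∈ Ioc N (2 * N), μ.real (Fh (fun n => (S n)ᶜ) (Icc 1 H) n) ≤ N := by
        calc ∑ n ∈ Ioc N (2 * N), μ.real (Fh (fun n => (S n)ᶜ) (Icc 1 H) n) ≤ ∑ n ∈ Ioc N (2 * N), (1 : ℝ) :=
              sum_le_sum fun n _ => measureReal_le_one
          _ = N := by
              rw [sum_const, Nat.card_Ioc, nsmul_eq_mul]
              have : 2 * N - N = N := by omega
              rw [this, mul_one]
      have h5 := dev_prob (μ := μ) (S := fun n => (S n)ᶜ) (fun n => (hm n).compl) (indep_compl hi) (Icc 1 H) H (Subset.refl _) N (2 * N) N t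
        hmean ht0.le htN hN0
      have h6 := h1 H hH2
      rw [← ht] at h6
      rw [hE, le_div_iff₀ (by positivity), mul_comm]
      refine le_trans ?_ h6
      apply mul_le_mul_of_nonneg_left _ (by positivity)
      subst ht
      exact h5
    rw [hBd]
    refine (measureReal_biUnion_finset_le _ _).trans ((sum_le_sum h4).trans ?_)
    rw [sum_const, card_range, nsmul_eq_mul, mul_div_assoc', div_le_iff₀ (by positivity), mul_comm]
    apply mul_le_mul_of_nonneg_left _ (by positivity)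
    push_cast
    have : ((⌊Real.log (N : ℝ) ^ B⌋₊ : ℕ) : ℝ) ≤ Real.log N ^ B := Nat.floor_le (by positivity)
    linarith
  obtain ⟨n₀, hn₀⟩ := eventually_atTop.1 hprob
  have hsum : Summable (fun N : ℕ => 1 / (N : ℝ) ^ 2) := Real.summable_one_div_nat_pow.2 (by norm_num)
  have h2 := bc (μ := μ) Bd n₀ _ hsum (fun n hn => hn₀ n hn)
  filter_upwards [h2] with ω hω
  filter_upwards [hω, mean_tail hA hm hi hp B K, tlog.eventually_ge_atTop 1] with N hN hN2 hN3 H hH1 hH2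
  have hL0 : 0 < Real.log (N : ℝ) := by linarith
  rw [hBd, hE] at hN
  simp only [Set.mem_iUnion, not_exists] at hN
  have h3 := hN H (by
    rw [mem_range]
    have := Nat.le_floor hH2
    omega)
  have h4 : |cnt (Ioc N (2 * N)) (Em S H) ω - ∑ n ∈ Ioc N (2 * N), μ.real (Em S H n)| ≤ ((H : ℝ) + 1) * (N / (Real.log N ^ K * ((H : ℝ) + 1))) := by
    by_contra h5
    push Not at h5
    exact h3 h5
  have e1 : ((H : ℝ) + 1) * (N / (Real.log N ^ K * ((H : ℝ) + 1))) = N / Real.log N ^ K := by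
    have : (0 : ℝ) < (H : ℝ) + 1 := by positivity
    field_simp
  rw [e1] at h4
  have h5 := (abs_le.1 h4).2
  have h6 := hN2 H hH1 hH2
  linarith

end Pool.Agent.T2H62.MG
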